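import Pool.Agent.MP_815c6c_an.t3.Cert
import Pool.Agent.MP_815c6c_an.ODE

-- ======== part 0: formerly Pool.Agent.MP_815c6c_an.t3.Bar
section MrgPart0

/-! Three dimensions: the profile equation and its barriers. -/

namespace Pool.Agent.MP_815c6c_an.T3

/-- `(1 - w^2) R' = Gt τ p k w R` is the profile equation; `τ` is the trace of the form -/
noncomputable def Gt (τ p k w R : ℝ) : ℝ :=
  (R ^ 2 + (1 - w ^ 2)) * (mu 3 p k * R ^ 2 - w * R + τ * R + k * (p - 1) * (1 - w ^ 2)) /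
    (2 * (R ^ 2 + (p - 1) * (1 - w ^ 2))) - w * R

lemma Gt_neg (τ p k w R : ℝ) : Gt (-τ) p k (-w) (-R) = Gt τ p k w R := by
  unfold Gt; ring

/-- the range of the parameters -/
structure Rg (p k : ℝ) : Prop where
  p1 : 17 / 10 ≤ p
  p2 : p < 2
  k1 : 3 / 2 ≤ k
  k2 : k ≤ kz (2 - p)

variable {τ p k w R : ℝ}

lemma kz_lt (p1 : 17 / 10 ≤ p) (p2 : p < 2) : kz (2 - p) < 1 + 2 / p := by
  have h : kz (2 - p) * p = p + 2 - (2 - p) ^ 4 / 8 := by unfold kz; ring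
  have : 0 < (2 - p) ^ 4 := pow_pos (by linarith) 4
  rw [← sub_lt_iff_lt_add', lt_div_iff₀ (by linarith)]
  linarith

lemma le_kz (p2 : p < 2) : 3 / 2 ≤ kz (2 - p) := by
  have : 0 < 2 - p := by linarith
  have : 0 ≤ (2 - p) / 2 + (2 - p) ^ 2 / 4 + (2 - p) ^ 3 / 8 := by positivity
  unfold kz; linarith

lemma Rg.mu1 (h : Rg p k) : 47 / 20 ≤ mu 3 p k := by
  unfold mu; nlinarith [h.p1, h.k1]

lemma Rg.mu2 (h : Rg p k) : mu 3 p k < 3 := by
  have h1 : k * (p - 1) ≤ (1 + 2 / p) * (p - 1) :=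
    mul_le_mul_of_nonneg_right (h.k2.trans (kz_lt h.p1 h.p2).le) (by linarith [h.p1])
  have p0 : 0 < p := by linarith [h.p1]
  have h2 : (1 + 2 / p) * (p - 1) = p + 1 - 2 / p := by field_simp; ring
  have h3 : 1 < 2 / p := by rw [lt_div_iff₀ p0]; linarith [h.p2]
  unfold mu; linarith

lemma Rg.kp (h : Rg p k) : 0 < k * (p - 1) ∧ k * (p - 1) ≤ 2 := by
  refine ⟨mul_pos (by linarith [h.k1]) (by linarith [h.p1]), ?_⟩
  have := h.mu2
  unfold mu at this; linarith [h.p2]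

lemma Gt_low (h : Rg p k) (t2 : τ ≤ 1) (hw0 : 0 ≤ w) (hw : w < 1) : 0 < Gt τ p k w (-2) := by
  have hy : 0 < 1 - w ^ 2 := by nlinarith
  have hp : 0 < p - 1 := by linarith [h.p1]
  have h1 : 0 < mu 3 p k * (-2) ^ 2 - w * (-2) + τ * (-2) + k * (p - 1) * (1 - w ^ 2) := by
    nlinarith [h.mu1, mul_pos h.kp.1 hy]
  have : 0 < ((-2) ^ 2 + (1 - w ^ 2)) * (mu 3 p k * (-2) ^ 2 - w * (-2) + τ * (-2) +
      k * (p - 1) * (1 - w ^ 2)) / (2 * ((-2) ^ 2 + (p - 1) * (1 - w ^ 2))) := by positivity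
  unfold Gt; linarith

lemma Gt_top (h : Rg p k) (hw0 : 0 ≤ w) (hw : w < 1) (hR : 0 < R) (hm : mu 3 p k * R = 3 - τ) :
    0 < Gt τ p k w R := by
  have hy : 0 < 1 - w ^ 2 := by nlinarith
  have hp : 0 < p - 1 := by linarith [h.p1]
  have hD : 0 < R ^ 2 + (p - 1) * (1 - w ^ 2) := by positivity
  have e : mu 3 p k * R ^ 2 - w * R + τ * R + k * (p - 1) * (1 - w ^ 2) =
      2 * (w * R) + (3 * (R * (1 - w)) + k * (p - 1) * (1 - w ^ 2)) := by
    linear_combination R * hm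
  have a1 : 0 < 3 * (R * (1 - w)) + k * (p - 1) * (1 - w ^ 2) := by
    have := h.kp.1
    have : 0 < 1 - w := by linarith
    positivity
  have a2 : 0 ≤ (2 - p) * (1 - w ^ 2) := mul_nonneg (by linarith [h.p2]) hy.le
  have a3 : 0 ≤ w * R := by positivity
  unfold Gt
  rw [e, sub_pos, lt_div_iff₀ (by positivity)]
  nlinarith [mul_pos hD a1, mul_nonneg a2 a3, mul_nonneg a2 a1.le]

lemma bot_mem (h : Rg p k) (t1 : -1 ≤ τ) (t2 : τ ≤ 1) :
    2 / 3 ≤ (3 - τ) / mu 3 p k ∧ (3 - τ) / mu 3 p k ≤ 2 := by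
  have m0 : 0 < mu 3 p k := by linarith [h.mu1]
  rw [le_div_iff₀ m0, div_le_iff₀ m0]
  constructor <;> linarith [h.mu1, h.mu2]

lemma Gt_bot (h : Rg p k) (t1 : -1 ≤ τ) (t2 : τ ≤ 1) (hw0 : 99 / 100 ≤ w) (hw : w < 1)
    (hR : R = (3 - τ) / mu 3 p k - 5 * (1 - w ^ 2)) : Gt τ p k w R < 10 * w * (1 - w ^ 2) := by
  have m0 : 0 < mu 3 p k := by linarith [h.mu1]
  have hp : 0 < p - 1 := by linarith [h.p1]
  obtain ⟨b1, b2⟩ := bot_mem h t1 t2
  have hm : mu 3 p k * R = 3 - τ - 5 * mu 3 p k * (1 - w ^ 2) := by rw [hR]; field_simp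
  have hy2 : 1 - w ≤ 1 - w ^ 2 := by nlinarith
  unfold Gt
  obtain ⟨y, hy⟩ : ∃ y, y = 1 - w ^ 2 := ⟨_, rfl⟩
  rw [← hy] at hR hm hy2 ⊢
  have y0 : 0 < y := by linarith
  have y1 : y ≤ 1 / 50 := by nlinarith
  have r1 : 1 / 2 ≤ R := by linarith
  have r2 : R ≤ 2 := by linarith
  obtain ⟨D, hD⟩ : ∃ D, D = R ^ 2 + (p - 1) * y := ⟨_, rfl⟩
  have d1 : 1 / 4 ≤ D := by nlinarith [mul_pos hp y0]
  obtain ⟨M, hM⟩ : ∃ M, M = mu 3 p k * R ^ 2 - w * R + τ * R + k * (p - 1) * y := ⟨_, rfl⟩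
  have e : M = 2 * (w * R) - R * (5 * mu 3 p k * y - 3 * (1 - w)) + k * (p - 1) * y := by
    rw [hM]; linear_combination R * hm
  have a1 : 0 ≤ R * (5 * mu 3 p k * y - 3 * (1 - w)) :=
    mul_nonneg (by linarith) (by nlinarith [h.mu1])
  have a2 : k * (p - 1) * y ≤ 2 * y := mul_le_mul_of_nonneg_right h.kp.2 y0.le
  have a3 : M ≤ 2 * (w * R) + 2 * y := by linarith
  have a4 : M ≤ 5 := by nlinarith
  have a5 : (2 - p) * y * M ≤ 3 / 2 * y := by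
    have : (2 - p) * y * M ≤ (2 - p) * y * 5 :=
      mul_le_mul_of_nonneg_left a4 (mul_nonneg (by linarith [h.p2]) y0.le)
    nlinarith [h.p1]
  have a6 : D * M ≤ D * (2 * (w * R) + 2 * y) := mul_le_mul_of_nonneg_left a3 (by linarith)
  have a7 : 1 / 4 * (17 * y) ≤ D * ((20 * w - 2) * y) :=
    mul_le_mul d1 (mul_le_mul_of_nonneg_right (by linarith) y0.le) (by positivity) (by linarith)
  rw [show R ^ 2 + y = D + (2 - p) * y by rw [hD]; ring, ← hD, ← hM, sub_lt_iff_lt_add,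
    div_lt_iff₀ (by linarith)]
  nlinarith

lemma Gt_line (p1 : 17 / 10 ≤ p) (p2 : p < 2) (h1 : -1 < w) (h2 : w < 1) :
    Gt 1 p (3 / 2) w (w - 1 / 3) < 1 - w ^ 2 := by
  have hy : 0 < 1 - w ^ 2 := by nlinarith
  have hp : 0 < p - 1 := by linarith
  unfold Gt mu
  rw [sub_lt_iff_lt_add, div_lt_iff₀ (by positivity)]
  have a1 : 0 ≤ (p - 17 / 10) * (50 / 81 - 20 / 27 * w + 2 / 9 * w ^ 2) :=
    mul_nonneg (by linarith) (by nlinarith)
  have a2 : 0 < (2 - p) * (217 / 405 - 26 / 27 * w + 5 / 9 * w ^ 2) :=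
    mul_pos (by linarith) (by nlinarith [sq_nonneg (w - 13 / 15)])
  nlinarith

lemma Gt_cubic (p1 : 17 / 10 ≤ p) (p2 : p < 2) (h1 : -1 < w) (h2 : w < 1) :
    dB (2 - p) w * (1 - w ^ 2) < Gt 1 p (kz (2 - p)) w (Bz (2 - p) w) := by
  have hy : 0 < 1 - w ^ 2 := by nlinarith
  have hp : 0 < p - 1 := by linarith
  have := Pz_pos (e := 2 - p) (by linarith) (by linarith) h1.le h2.le
  unfold Gt mu
  rw [lt_sub_iff_add_lt, lt_div_iff₀ (by positivity)]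
  unfold Pz at this
  linarith

lemma hasDerivAt_Bz (e w : ℝ) : HasDerivAt (Bz e) (dB e w) w := by
  unfold Bz dB
  refine (((((hasDerivAt_id w).const_mul _).const_add _).add
    ((hasDerivAt_pow 2 w).const_mul _)).add ((hasDerivAt_pow 3 w).const_mul _)).congr_deriv ?_
  norm_num
  ring

lemma Bz_mem {e : ℝ} (h0 : 0 ≤ e) (h3 : e ≤ 3 / 10) (h1 : -1 ≤ w) (h2 : w ≤ 1) :
    -2 ≤ Bz e w ∧ Bz e w ≤ 2 := by
  have e2 : 0 ≤ e ^ 2 ∧ e ^ 2 ≤ 9 / 100 := ⟨by positivity, by nlinarith⟩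
  have w2 : 0 ≤ w ^ 2 ∧ w ^ 2 ≤ 1 := ⟨by positivity, by nlinarith⟩
  have w3 : -1 ≤ w ^ 3 ∧ w ^ 3 ≤ 1 := by constructor <;> nlinarith
  have b : ∀ c x : ℝ, 0 ≤ c → -1 ≤ x → x ≤ 1 → -c ≤ c * x ∧ c * x ≤ c := fun c x a b d => by
    constructor <;> nlinarith
  have b1 := b (1 + 17 / 100 * e + 3 / 200 * e ^ 2) w (by positivity) h1 h2
  have b2 := b (3 / 50 * e + 19 / 100 * e ^ 2) (w ^ 2) (by positivity) (by linarith) w2.2
  have b3 := b (1 / 50 * e + 9 / 100 * e ^ 2) (w ^ 3) (by positivity) w3.1 w3.2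
  unfold Bz
  constructor <;> linarith [b1.1, b1.2, b2.1, b2.2, b3.1, b3.2, e2.1, e2.2]

lemma Bz_right (p1 : 17 / 10 ≤ p) (p2 : p < 2) (hw0 : 99 / 100 ≤ w) (hw : w < 1) :
    (3 - 1) / mu 3 p (kz (2 - p)) - 5 * (1 - w ^ 2) ≤ Bz (2 - p) w := by
  have m0 : 0 < mu 3 p (kz (2 - p)) := by linarith [(Rg.mk p1 p2 (le_kz p2) le_rfl).mu1]
  obtain ⟨e, rfl⟩ : ∃ e, p = 2 - e := ⟨2 - p, by ring⟩
  rw [sub_sub_cancel] at m0 ⊢
  have e0 : 0 < e := by linarith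
  have e1 : e ≤ 3 / 10 := by linarith
  have e2 : e ^ 2 ≤ 9 / 100 := by nlinarith
  have e3 : e ^ 3 ≤ 27 / 1000 := by nlinarith
  have e4 : e ^ 4 ≤ 1 / 100 := by nlinarith
  have e5 : e ^ 5 ≤ 1 / 100 := by nlinarith
  have a1 : (3 - 1) / mu 3 (2 - e) (kz e) ≤ Bz e 1 := by
    rw [div_le_iff₀ m0]
    have : Bz e 1 * mu 3 (2 - e) (kz e) = 3 - 1 + e * (17 / 300 + 7 / 300 * e - 19 / 120 * e ^ 2 -
        29 / 240 * e ^ 3 - 43 / 1600 * e ^ 4 - 17 / 1600 * e ^ 5) := by unfold Bz mu kz; ring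
    rw [this]
    exact le_add_of_nonneg_right (mul_nonneg e0.le (by linarith))
  have a2 : Bz e w + 5 * (1 - w ^ 2) = Bz e 1 + (1 - w) * (5 * (1 + w) -
      ((1 + 17 / 100 * e + 3 / 200 * e ^ 2) + (3 / 50 * e + 19 / 100 * e ^ 2) * (1 + w) +
        (1 / 50 * e + 9 / 100 * e ^ 2) * (1 + w + w ^ 2))) := by unfold Bz; ring
  have a3 : (3 / 50 * e + 19 / 100 * e ^ 2) * (1 + w) ≤ 1 * 2 :=
    mul_le_mul (by linarith) (by linarith) (by linarith) (by norm_num)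
  have a4 : (1 / 50 * e + 9 / 100 * e ^ 2) * (1 + w + w ^ 2) ≤ 1 * 3 :=
    mul_le_mul (by linarith) (by nlinarith) (by positivity) (by norm_num)
  have a5 := mul_nonneg (a := 1 - w) (b := 5 * (1 + w) -
      ((1 + 17 / 100 * e + 3 / 200 * e ^ 2) + (3 / 50 * e + 19 / 100 * e ^ 2) * (1 + w) +
        (1 / 50 * e + 9 / 100 * e ^ 2) * (1 + w + w ^ 2))) (by linarith) (by linarith)
  linarith

lemma Bz_left (p1 : 17 / 10 ≤ p) (p2 : p < 2) (hw0 : 99 / 100 ≤ w) (hw : w < 1) :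
    (3 - -1) / mu 3 p (kz (2 - p)) - 5 * (1 - w ^ 2) ≤ -Bz (2 - p) (-w) := by
  have m0 : 0 < mu 3 p (kz (2 - p)) := by linarith [(Rg.mk p1 p2 (le_kz p2) le_rfl).mu1]
  obtain ⟨e, rfl⟩ : ∃ e, p = 2 - e := ⟨2 - p, by ring⟩
  rw [sub_sub_cancel] at m0 ⊢
  have e0 : 0 < e := by linarith
  have e1 : e ≤ 3 / 10 := by linarith
  have e2 : e ^ 2 ≤ 9 / 100 := by nlinarith
  have e3 : e ^ 3 ≤ 27 / 1000 := by nlinarith
  have e4 : e ^ 4 ≤ 1 / 100 := by nlinarith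
  have e5 : e ^ 5 ≤ 1 / 100 := by nlinarith
  have a1 : (3 - -1) / mu 3 (2 - e) (kz e) ≤ -Bz e (-1) := by
    rw [div_le_iff₀ m0]
    have : -Bz e (-1) * mu 3 (2 - e) (kz e) = 3 - -1 + e * (1 / 12 - 1 / 12 * e - 7 / 24 * e ^ 2 -
        11 / 48 * e ^ 3 - 3 / 64 * e ^ 4 - 1 / 64 * e ^ 5) := by unfold Bz mu kz; ring
    rw [this]
    exact le_add_of_nonneg_right (mul_nonneg e0.le (by linarith))
  have a2 : -Bz e (-w) + 5 * (1 - w ^ 2) = -Bz e (-1) + (1 - w) * (5 * (1 + w) -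
      ((1 + 17 / 100 * e + 3 / 200 * e ^ 2) - (3 / 50 * e + 19 / 100 * e ^ 2) * (1 + w) +
        (1 / 50 * e + 9 / 100 * e ^ 2) * (1 + w + w ^ 2))) := by unfold Bz; ring
  have a3 : 0 ≤ (3 / 50 * e + 19 / 100 * e ^ 2) * (1 + w) :=
    mul_nonneg (by positivity) (by linarith)
  have a4 : (1 / 50 * e + 9 / 100 * e ^ 2) * (1 + w + w ^ 2) ≤ 1 * 3 :=
    mul_le_mul (by linarith) (by nlinarith) (by positivity) (by norm_num)
  have a5 := mul_nonneg (a := 1 - w) (b := 5 * (1 + w) -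
      ((1 + 17 / 100 * e + 3 / 200 * e ^ 2) - (3 / 50 * e + 19 / 100 * e ^ 2) * (1 + w) +
        (1 / 50 * e + 9 / 100 * e ^ 2) * (1 + w + w ^ 2))) (by linarith) (by linarith)
  linarith

end Pool.Agent.MP_815c6c_an.T3

end MrgPart0

-- ======== part 1: formerly Pool.Agent.MP_815c6c_an.t3.Fam
section MrgPart1

/-! Three dimensions: solutions that depend on a parameter and on the initial value. -/

open Set Filter Topology Metric
open scoped NNReal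

namespace Pool.Agent.MP_815c6c_an.T3

/-- truncation to `[-2, 2]` -/
def cl (x : ℝ) : ℝ := max (-2) (min x 2)

lemma cl_mem (x : ℝ) : cl x ∈ Icc (-2:ℝ) 2 :=
  ⟨le_max_left _ _, max_le (by norm_num) (min_le_right _ _)⟩

lemma cl_of_mem {x : ℝ} (h : x ∈ Icc (-2:ℝ) 2) : cl x = x := by
  unfold cl; rw [min_eq_left h.2, max_eq_right h.1]

lemma cl_lipschitz : LipschitzWith 1 cl :=
  (LipschitzWith.id.min_const 2).const_max (-2)

/-- `R` solves `R' = v w R` on `[0,1)` -/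
def Sol (v : ℝ → ℝ → ℝ) (R : ℝ → ℝ) : Prop :=
  ∀ w ∈ Ico (0:ℝ) 1, HasDerivWithinAt R (v w (R w)) (Ici 0) w

lemma Sol.continuousOn {v : ℝ → ℝ → ℝ} {R : ℝ → ℝ} (h : Sol v R) {a T : ℝ} (ha : 0 ≤ a)
    (hT : T < 1) : ContinuousOn R (Icc a T) := fun t ht =>
  ((h t ⟨ha.trans ht.1, ht.2.trans_lt hT⟩).continuousWithinAt).mono
    (fun _ hs => ha.trans hs.1)

lemma Sol.right {v : ℝ → ℝ → ℝ} {R : ℝ → ℝ} (h : Sol v R) {a T : ℝ} (ha : 0 ≤ a)
    (hT : T < 1) : ∀ t ∈ Ico a T, HasDerivWithinAt R (v t (R t)) (Ici t) t := fun t ht =>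
  (h t ⟨ha.trans ht.1, ht.2.trans hT⟩).mono (fun _ hs => (ha.trans ht.1).trans hs)

lemma gron_cont (K x : ℝ) : Continuous fun d : ℝ => gronwallBound d K (K * d + 0) x := by
  by_cases h : K = 0
  · subst h
    simp only [gronwallBound_K0]
    fun_prop
  · simp only [gronwallBound_of_K_ne_0 h]
    fun_prop

lemma exists_family (g : ℝ × ℝ × ℝ → ℝ) (a b : ℝ)
    (hg : ContDiffOn ℝ 1 g (Icc a b ×ˢ Ico 0 1 ×ˢ Icc (-2) 2)) :
    ∃ R : ℝ × ℝ → ℝ → ℝ, (∀ z : ℝ × ℝ, z.1 ∈ Icc a b → R z 0 = z.2 ∧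
        Sol (fun w x => g (z.1, w, cl x)) (R z)) ∧
      (∀ w ∈ Ico (0:ℝ) 1, ContinuousOn (fun z => R z w) {z | z.1 ∈ Icc a b}) ∧
      ∀ k ∈ Icc a b, ∀ c c', c ≤ c' → ∀ w ∈ Ico (0:ℝ) 1, R (k, c) w ≤ R (k, c') w := by
  have hlip : ∀ T ∈ Ico (0:ℝ) 1, ∃ K : ℝ≥0,
      LipschitzOnWith K g (Icc a b ×ˢ Icc 0 T ×ˢ Icc (-2) 2) := by
    intro T hT
    refine (hg.mono (prod_mono le_rfl (prod_mono ?_ le_rfl))).exists_lipschitzOnWith
      one_ne_zero ((convex_Icc _ _).prod ((convex_Icc _ _).prod (convex_Icc _ _)))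
      (isCompact_Icc.prod (isCompact_Icc.prod isCompact_Icc))
    exact fun s hs => ⟨hs.1, hs.2.trans_lt hT.2⟩
  have hlipx : ∀ {T : ℝ} {K : ℝ≥0}, LipschitzOnWith K g (Icc a b ×ˢ Icc 0 T ×ˢ Icc (-2) 2) →
      ∀ k ∈ Icc a b, ∀ t ∈ Icc 0 T, LipschitzWith K (fun x => g (k, t, cl x)) := by
    intro T K hK k hk t ht
    refine LipschitzWith.of_dist_le_mul fun x y => ?_
    refine (hK.dist_le_mul (k, t, cl x) ⟨hk, ht, cl_mem x⟩ (k, t, cl y)
      ⟨hk, ht, cl_mem y⟩).trans ?_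
    gcongr
    simp only [Prod.dist_eq, dist_self]
    have := cl_lipschitz.dist_le_mul x y
    simp only [NNReal.coe_one, one_mul] at this
    exact max_le dist_nonneg (max_le dist_nonneg this)
  have hex : ∀ z : ℝ × ℝ, z.1 ∈ Icc a b → ∃ R : ℝ → ℝ, R 0 = z.2 ∧
      Sol (fun w x => g (z.1, w, cl x)) R := by
    rintro ⟨k, c⟩ hk
    obtain ⟨R, h0, hR⟩ : ∃ R, IsSol (fun w x => g (k, w, cl (x + c))) R := by
      refine exists_isSol _ fun T hT => ?_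
      obtain ⟨K, hK⟩ := hlip T hT
      obtain ⟨L, hL⟩ := (isCompact_Icc.prod
        (isCompact_Icc.prod isCompact_Icc)).exists_bound_of_continuousOn hK.continuousOn
      refine ⟨K, ⟨max L 0, le_max_right _ _⟩, fun t ht => ?_, fun t ht x => ?_, fun x => ?_⟩
      · refine LipschitzWith.of_dist_le_mul fun x y => ?_
        simpa using (hlipx hK k hk t ht).dist_le_mul (x + c) (y + c)
      · exact (hL _ ⟨hk, ht, cl_mem _⟩).trans (le_max_left _ _)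
      · exact hK.continuousOn.comp (f := fun t => (k, t, cl (x + c))) (by fun_prop)
          (fun t ht => ⟨hk, ht, cl_mem _⟩)
    exact ⟨fun w => R w + c, by simp [h0], fun w hw => (hR w hw).add_const c⟩
  choose! R hR using hex
  refine ⟨R, hR, fun w hw z hz => ?_, fun k hk c c' hc w hw => ?_⟩
  · obtain ⟨K, hK⟩ := hlip w hw
    have hb : ∀ z' ∈ {z : ℝ × ℝ | z.1 ∈ Icc a b}, dist (R z' w) (R z w) ≤
        gronwallBound (dist z' z) K (K * dist z' z + 0) (w - 0) := by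
      intro z' hz'
      refine dist_le_of_approx_trajectories_ODE_of_mem (v := fun t x => g (z.1, t, cl x))
        (s := fun _ => univ) (f' := fun t => g (z'.1, t, cl (R z' t)))
        (g' := fun t => g (z.1, t, cl (R z t)))
        (fun s hs => (hlipx hK z.1 hz s ⟨hs.1, hs.2.le⟩).lipschitzOnWith)
        ((hR z' hz').2.continuousOn le_rfl hw.2) ((hR z' hz').2.right le_rfl hw.2) (fun s hs => ?_)
        (fun _ _ => trivial) ((hR z hz).2.continuousOn le_rfl hw.2)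
        ((hR z hz).2.right le_rfl hw.2) (fun s hs => by simp) (fun _ _ => trivial)
        (by rw [(hR z hz).1, (hR z' hz').1, Prod.dist_eq]; exact le_max_right _ _)
        w ⟨hw.1, le_rfl⟩
      refine (hK.dist_le_mul (z'.1, s, cl (R z' s)) ⟨hz', ⟨hs.1, hs.2.le⟩, cl_mem _⟩
        (z.1, s, cl (R z' s)) ⟨hz, ⟨hs.1, hs.2.le⟩, cl_mem _⟩).trans ?_
      gcongr
      simp only [Prod.dist_eq, dist_self]
      exact max_le (le_max_left _ _) (le_max_of_le_left dist_nonneg)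
    rw [ContinuousWithinAt, tendsto_iff_dist_tendsto_zero]
    refine squeeze_zero' (Eventually.of_forall fun _ => dist_nonneg)
      (eventually_nhdsWithin_of_forall hb) ?_
    have hc : Continuous fun z' : ℝ × ℝ =>
        gronwallBound (dist z' z) K (K * dist z' z + 0) (w - 0) :=
      (gron_cont K (w - 0)).comp (by fun_prop)
    have := hc.tendsto z
    simp only [dist_self, mul_zero, add_zero, gronwallBound_ε0_δ0] at this
    simpa using this.mono_left nhdsWithin_le_nhds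
  · by_contra hn
    push Not at hn
    obtain ⟨K, hK⟩ := hlip w hw
    have h1 := hR (k, c) hk
    have h2 := hR (k, c') hk
    obtain ⟨s, hs, e⟩ := intermediate_value_Icc hw.1
      ((h1.2.continuousOn le_rfl hw.2).sub (h2.2.continuousOn le_rfl hw.2)) (a := 0)
      (show (0:ℝ) ∈ Icc _ _ from ⟨by simp only [Pi.sub_apply, h1.1, h2.1]; linarith,
        by simp only [Pi.sub_apply]; linarith⟩)
    have := ODE_solution_unique_of_mem_Icc_right (v := fun t x => g (k, t, cl x))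
      (s := fun _ => univ) (K := K)
      (fun t ht => (hlipx hK k hk t ⟨hs.1.trans ht.1, ht.2.le⟩).lipschitzOnWith)
      (h1.2.continuousOn hs.1 hw.2) (h1.2.right hs.1 hw.2) (fun _ _ => trivial)
      (h2.2.continuousOn hs.1 hw.2) (h2.2.right hs.1 hw.2) (fun _ _ => trivial)
      (sub_eq_zero.1 e) (right_mem_Icc.2 hs.2)
    exact hn.ne' this

end Pool.Agent.MP_815c6c_an.T3

end MrgPart1

-- ======== part 2: formerly Pool.Agent.MP_815c6c_an.t3.Shoot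
section MrgPart2

/-! Three dimensions: shooting towards both singular ends. -/

open Set Filter Topology Metric

namespace Pool.Agent.MP_815c6c_an.T3

/-- the two exit sets of the solutions on `[0,1)` with degree `k` and initial value `c` -/
structure Half (τ p : ℝ) (Top Bot : Set (ℝ × ℝ)) : Prop where
  op : ∃ T B : Set (ℝ × ℝ), IsOpen T ∧ IsOpen B ∧
    ∀ k c, Rg p k → ((k, c) ∈ Top ↔ (k, c) ∈ T) ∧ ((k, c) ∈ Bot ↔ (k, c) ∈ B)
  disj : ∀ k c, Rg p k → (k, c) ∈ Top → (k, c) ∉ Bot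
  up : ∀ k c c', Rg p k → c ≤ c' → (k, c) ∈ Top → (k, c') ∈ Top
  two : ∀ k, Rg p k → (k, 2) ∈ Top
  sup : ∀ k c (B B' : ℝ → ℝ), Rg p k → (∀ x, HasDerivAt B (B' x) x) → c ≤ B 0 →
    (∀ x ∈ Ico (0:ℝ) 1, B x ∈ Icc (-2:ℝ) 2 ∧ Gt τ p k x (B x) < B' x * (1 - x ^ 2) ∧
      B x ≤ (3 - τ) / mu 3 p k) → (k, c) ∉ Top
  sub : ∀ k c (B B' : ℝ → ℝ), Rg p k → (∀ x, HasDerivAt B (B' x) x) → B 0 ≤ c →
    (∀ x ∈ Ico (0:ℝ) 1, B x ∈ Icc (-2:ℝ) 2 ∧ B' x * (1 - x ^ 2) < Gt τ p k x (B x)) →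
    (∀ x ∈ Ico (99 / 100 : ℝ) 1, (3 - τ) / mu 3 p k - 5 * (1 - x ^ 2) ≤ B x) → (k, c) ∉ Bot
  good : ∀ k c, Rg p k → -2 ≤ c → (k, c) ∉ Top → (k, c) ∉ Bot → ∃ S : ℝ → ℝ, S 0 = c ∧
    (∀ w ∈ Ico (0:ℝ) 1, HasDerivWithinAt S (Gt τ p k w (S w) / (1 - w ^ 2)) (Ici 0) w) ∧
    ∀ w ∈ Icc (0:ℝ) 1, |3 * w - τ - mu 3 p k * S w| ≤ 1000 * (1 - w ^ 2)

theorem exists_half {τ p : ℝ} (p1 : 17 / 10 ≤ p) (p2 : p < 2) (t1 : -1 ≤ τ) (t2 : τ ≤ 1) :
    ∃ Top Bot, Half τ p Top Bot := by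
  have hp' : 0 < p - 1 := by linarith
  have hy : ∀ w : ℝ, 0 ≤ w → w < 1 → 0 < 1 - w ^ 2 := fun w h0 h1 => by nlinarith
  obtain ⟨R, hR, hcont, hmono⟩ := exists_family
    (fun z => Gt τ p z.1 z.2.1 z.2.2 / (1 - z.2.1 ^ 2)) (3 / 2) (kz (2 - p)) (by
      unfold Gt mu
      refine ContDiffOn.div (ContDiffOn.sub (ContDiffOn.div (by fun_prop) (by fun_prop) ?_)
        (by fun_prop)) (by fun_prop) ?_
      · rintro ⟨k, w, x⟩ ⟨-, hw, -⟩
        have := hy w hw.1 hw.2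
        positivity
      · rintro ⟨k, w, x⟩ ⟨-, hw, -⟩
        exact (hy w hw.1 hw.2).ne')
  have mem : ∀ {k}, Rg p k → k ∈ Icc (3 / 2) (kz (2 - p)) := fun h => ⟨h.k1, h.k2⟩
  have below : ∀ k c, Rg p k → ∀ (B B' : ℝ → ℝ) (a T : ℝ), 0 ≤ a → T < 1 →
      (∀ x, HasDerivAt B (B' x) x) → B a ≤ R (k, c) a →
      (∀ x ∈ Ico a T, B x ∈ Icc (-2:ℝ) 2 ∧ B' x * (1 - x ^ 2) < Gt τ p k x (B x)) →
      ∀ x ∈ Icc a T, B x ≤ R (k, c) x := by
    intro k c hk B B' a T ha hT hB hBa hlt x hx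
    have s := (hR (k, c) (mem hk)).2
    refine image_le_of_deriv_right_lt_deriv_boundary' (f' := B')
      (fun x _ => (hB x).continuousAt.continuousWithinAt) (fun x _ => (hB x).hasDerivWithinAt)
      hBa (s.continuousOn ha hT) (s.right ha hT) (fun s hs he => ?_) hx
    obtain ⟨h1, h2⟩ := hlt s hs
    simp only
    rw [← he, cl_of_mem h1, lt_div_iff₀ (hy s (ha.trans hs.1) (hs.2.trans hT))]
    exact h2
  have above : ∀ k c, Rg p k → ∀ (B B' : ℝ → ℝ) (a T : ℝ), 0 ≤ a → T < 1 →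
      (∀ x, HasDerivAt B (B' x) x) → R (k, c) a ≤ B a →
      (∀ x ∈ Ico a T, B x ∈ Icc (-2:ℝ) 2 ∧ Gt τ p k x (B x) < B' x * (1 - x ^ 2)) →
      ∀ x ∈ Icc a T, R (k, c) x ≤ B x := by
    intro k c hk B B' a T ha hT hB hBa hlt x hx
    have s := (hR (k, c) (mem hk)).2
    refine image_le_of_deriv_right_lt_deriv_boundary
      (s.continuousOn ha hT) (s.right ha hT) hBa hB (fun s hs he => ?_) hx
    obtain ⟨h1, h2⟩ := hlt s hs
    simp only
    rw [he, cl_of_mem h1, div_lt_iff₀ (hy s (ha.trans hs.1) (hs.2.trans hT))]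
    exact h2
  have hlow : ∀ k x : ℝ, HasDerivAt (fun w : ℝ => (3 - τ) / mu 3 p k - 5 * (1 - w ^ 2))
      (10 * x) x := by
    intro k x
    refine ((((hasDerivAt_pow 2 x).const_sub 1).const_mul 5).const_sub _).congr_deriv ?_
    norm_num
    ring
  have m0 : ∀ {k}, Rg p k → 0 < mu 3 p k := fun h => by linarith [h.mu1]
  have hcmu : ContinuousOn (fun z : ℝ × ℝ => (3 - τ) / mu 3 p z.1)
      {z | z.1 ∈ Icc (3 / 2) (kz (2 - p))} :=
    continuousOn_const.div (by unfold mu; fun_prop) fun z hz => (m0 ⟨p1, p2, hz.1, hz.2⟩).ne'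
  have opn : ∀ f : ℝ × ℝ → ℝ, ContinuousOn f {z | z.1 ∈ Icc (3 / 2) (kz (2 - p))} →
      ∃ U, IsOpen U ∧ ∀ z : ℝ × ℝ, z.1 ∈ Icc (3 / 2) (kz (2 - p)) → (0 < f z ↔ z ∈ U) := by
    intro f hf
    obtain ⟨U, h1, h2⟩ := continuousOn_iff'.1 hf (Ioi 0) isOpen_Ioi
    exact ⟨U, h1, fun z hz => ⟨fun h => (h2.subset ⟨h, hz⟩).1, fun h => (h2.symm.subset ⟨h, hz⟩).1⟩⟩
  refine ⟨{z | ∃ w ∈ Ico (0:ℝ) 1, (3 - τ) / mu 3 p z.1 < R z w},
    {z | ∃ w ∈ Ico (99 / 100 : ℝ) 1, R z w < (3 - τ) / mu 3 p z.1 - 5 * (1 - w ^ 2)},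
    ?_, ?_, ?_, ?_, ?_, ?_, ?_⟩
  · choose! U hU using fun w (hw : w ∈ Ico (0:ℝ) 1) => opn _ ((hcont w hw).sub hcmu)
    choose! V hV using fun w (hw : w ∈ Ico (99 / 100 : ℝ) 1) =>
      opn _ ((hcmu.sub (continuousOn_const (c := 5 * (1 - w ^ 2)))).sub
        (hcont w ⟨by linarith [hw.1], hw.2⟩))
    refine ⟨⋃ w ∈ Ico (0:ℝ) 1, U w, ⋃ w ∈ Ico (99 / 100 : ℝ) 1, V w,
      isOpen_biUnion fun w hw => (hU w hw).1, isOpen_biUnion fun w hw => (hV w hw).1,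
      fun k c hk => ⟨?_, ?_⟩⟩ <;> simp only [mem_ofPred_eq, mem_iUnion, exists_prop]
    · exact exists_congr fun w => and_congr_right fun hw =>
        sub_pos.symm.trans ((hU w hw).2 (k, c) (mem hk))
    · exact exists_congr fun w => and_congr_right fun hw =>
        sub_pos.symm.trans ((hV w hw).2 (k, c) (mem hk))
  · rintro k c hk ⟨w₁, hw₁, h₁⟩ ⟨w₂, hw₂, h₂⟩
    have hT : max w₁ w₂ < 1 := max_lt hw₁.2 hw₂.2
    obtain ⟨b1, b2⟩ := bot_mem hk t1 t2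
    have a1 := below k c hk (fun _ => (3 - τ) / mu 3 p k) (fun _ => 0) w₁ (max w₁ w₂) hw₁.1 hT
      (fun x => hasDerivAt_const x _) h₁.le (fun x hx => ⟨⟨by linarith, b2⟩, by
        rw [zero_mul]
        exact Gt_top hk (hw₁.1.trans hx.1) (hx.2.trans hT) (by linarith)
          (mul_div_cancel₀ _ (m0 hk).ne')⟩) (max w₁ w₂) ⟨le_max_left _ _, le_rfl⟩
    have a2 := above k c hk (fun w => (3 - τ) / mu 3 p k - 5 * (1 - w ^ 2)) (fun x => 10 * x) w₂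
      (max w₁ w₂) (by linarith [hw₂.1]) hT (hlow k) h₂.le (fun x hx => by
        have hx0 : 99 / 100 ≤ x := hw₂.1.trans hx.1
        have hx1 : x < 1 := hx.2.trans hT
        have hyx := hy x (by linarith) hx1
        exact ⟨⟨by nlinarith, by linarith⟩, Gt_bot hk t1 t2 hx0 hx1 rfl⟩)
      (max w₁ w₂) ⟨le_max_right _ _, le_rfl⟩
    have := hy (max w₁ w₂) (hw₁.1.trans (le_max_left _ _)) hT
    linarith
  · rintro k c c' hk hc ⟨w, hw, h⟩
    exact ⟨w, hw, h.trans_le (hmono k (mem hk) c c' hc w hw)⟩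
  · intro k hk
    refine ⟨0, ⟨le_rfl, one_pos⟩, ?_⟩
    rw [(hR (k, 2) (mem hk)).1, div_lt_iff₀ (m0 hk)]
    linarith [hk.mu1]
  · rintro k c B B' hk hB h0 hb ⟨w, hw, h⟩
    have := above k c hk B B' 0 w le_rfl hw.2 hB (by rwa [(hR (k, c) (mem hk)).1])
      (fun x hx => ⟨(hb x ⟨hx.1, hx.2.trans hw.2⟩).1, (hb x ⟨hx.1, hx.2.trans hw.2⟩).2.1⟩)
      w ⟨hw.1, le_rfl⟩
    exact absurd (this.trans (hb w hw).2.2) (not_le.2 h)
  · rintro k c B B' hk hB h0 hb hb' ⟨w, hw, h⟩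
    have := below k c hk B B' 0 w le_rfl hw.2 hB (by rwa [(hR (k, c) (mem hk)).1])
      (fun x hx => hb x ⟨hx.1, hx.2.trans hw.2⟩) w ⟨by linarith [hw.1], le_rfl⟩
    exact absurd ((hb' w hw).trans this) (not_le.2 h)
  · intro k c hk hc hT hB
    obtain ⟨s0, s⟩ := hR (k, c) (mem hk)
    obtain ⟨b1, b2⟩ := bot_mem hk t1 t2
    have hbd : ∀ w ∈ Ico (0:ℝ) 1, -2 ≤ R (k, c) w ∧ R (k, c) w ≤ (3 - τ) / mu 3 p k := by
      intro w hw
      refine ⟨?_, not_lt.1 fun h => hT ⟨w, hw, h⟩⟩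
      exact below k c hk (fun _ => -2) (fun _ => 0) 0 w le_rfl hw.2
        (fun x => hasDerivAt_const x _) (by rwa [s0]) (fun x hx => ⟨⟨le_rfl, by norm_num⟩, by
          rw [zero_mul]
          exact Gt_low hk t2 hx.1 (hx.2.trans hw.2)⟩) w ⟨hw.1, le_rfl⟩
    refine ⟨fun w => if w < 1 then R (k, c) w else (3 - τ) / mu 3 p k, by simpa using s0,
      fun w hw => ?_, fun w hw => ?_⟩
    · have := s w hw
      simp only at this
      rw [cl_of_mem ⟨(hbd w hw).1, (hbd w hw).2.trans b2⟩] at this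
      simp only [if_pos hw.2]
      refine this.congr_of_eventuallyEq ?_ (if_pos hw.2)
      filter_upwards [nhdsWithin_le_nhds (Iio_mem_nhds hw.2)] with v hv
      exact if_pos hv
    · rcases hw.2.eq_or_lt with rfl | hw1
      · simp only [lt_irrefl, if_false]
        rw [mul_div_cancel₀ _ (m0 hk).ne']; simp
      simp only [if_pos hw1]
      obtain ⟨c1, c2⟩ := hbd w ⟨hw.1, hw1⟩
      have c3 : mu 3 p k * R (k, c) w ≤ 3 - τ := by rwa [le_div_iff₀ (m0 hk), mul_comm] at c2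
      have c4 : -6 ≤ mu 3 p k * R (k, c) w := by nlinarith [hk.mu1, hk.mu2]
      have c5 : 1 - w ≤ 1 - w ^ 2 := by nlinarith [hw.1]
      rcases lt_or_ge w (99 / 100) with h | h
      · rw [abs_le]; constructor <;> linarith [hw.1]
      · have c6 : (3 - τ) / mu 3 p k - 5 * (1 - w ^ 2) ≤ R (k, c) w :=
          not_lt.1 fun h' => hB ⟨w, ⟨h, hw1⟩, h'⟩
        have c7 := mul_le_mul_of_nonneg_left c6 (m0 hk).le
        rw [mul_sub, mul_div_cancel₀ _ (m0 hk).ne'] at c7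
        have c8 : mu 3 p k * (5 * (1 - w ^ 2)) ≤ 3 * (5 * (1 - w ^ 2)) :=
          mul_le_mul_of_nonneg_right hk.mu2.le (by linarith)
        rw [abs_le]; constructor <;> linarith

theorem exists_both {p : ℝ} (p1 : 17 / 10 ≤ p) (p2 : p < 2) {T B T' B' : Set (ℝ × ℝ)}
    (h : Half 1 p T B) (h' : Half (-1) p T' B') : ∃ k c, Rg p k ∧ c ∈ Icc (-2:ℝ) 2 ∧
      (k, c) ∉ T ∧ (k, c) ∉ B ∧ (k, -c) ∉ T' ∧ (k, -c) ∉ B' := by
  by_contra hn
  obtain ⟨U, V, oU, oV, e⟩ := h.op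
  obtain ⟨U', V', oU', oV', e'⟩ := h'.op
  have rg : ∀ k ∈ Icc (3 / 2) (kz (2 - p)), Rg p k := fun k hk => ⟨p1, p2, hk.1, hk.2⟩
  have cov : ∀ k, Rg p k → (∃ c, (k, c) ∈ B ∧ (k, -c) ∈ B') ∨ ∃ c, (k, c) ∈ T ∧ (k, -c) ∈ T' := by
    intro k hk
    obtain ⟨c, -, c1, c2⟩ := isPreconnected_Icc (a := (-2:ℝ)) (b := 2)
      {c | (k, c) ∈ U ∨ (k, -c) ∈ V'} {c | (k, c) ∈ V ∨ (k, -c) ∈ U'}
      ((oU.preimage (by fun_prop)).union (oV'.preimage (by fun_prop)))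
      ((oV.preimage (by fun_prop)).union (oU'.preimage (by fun_prop)))
      (fun c hc => by
        by_contra hc'
        simp only [mem_union, mem_ofPred_eq, not_or] at hc'
        exact hn ⟨k, c, hk, hc, fun q => hc'.1.1 ((e k c hk).1.1 q),
          fun q => hc'.2.1 ((e k c hk).2.1 q), fun q => hc'.2.2 ((e' k _ hk).1.1 q),
          fun q => hc'.1.2 ((e' k _ hk).2.1 q)⟩)
      ⟨2, by norm_num, Or.inl ((e k 2 hk).1.1 (h.two k hk))⟩
      ⟨-2, by norm_num, Or.inr ((e' k _ hk).1.1 (by rw [neg_neg]; exact h'.two k hk))⟩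
    simp only [mem_ofPred_eq, ← (e k c hk).1, ← (e k c hk).2, ← (e' k _ hk).1,
      ← (e' k _ hk).2] at c1 c2
    rcases c1 with c1 | c1 <;> rcases c2 with c2 | c2
    · exact absurd c2 (h.disj k c hk c1)
    · exact Or.inr ⟨c, c1, c2⟩
    · exact Or.inl ⟨c, c2, c1⟩
    · exact absurd c1 (h'.disj k _ hk c2)
  have r1 := rg _ ⟨le_rfl, le_kz p2⟩
  have r2 := rg _ ⟨le_kz p2, le_rfl⟩
  have lo : ¬ ∃ c, (3 / 2, c) ∈ T ∧ (3 / 2, -c) ∈ T' := by
    rintro ⟨c, c1, c2⟩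
    rcases le_total c (-1 / 3) with q | q
    · refine h.sup _ c (fun w => w - 1 / 3) (fun _ => 1) r1
        (fun x => (hasDerivAt_id x).sub_const _) (by linarith) (fun x hx => ⟨⟨?_, ?_⟩, ?_, ?_⟩) c1
      · linarith [hx.1]
      · linarith [hx.2]
      · rw [one_mul]; exact Gt_line p1 p2 (by linarith [hx.1]) hx.2
      · linarith [(bot_mem (τ := 1) r1 (by norm_num) le_rfl).1, hx.2]
    · refine h'.sup _ (-c) (fun w => w + 1 / 3) (fun _ => 1) r1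
        (fun x => (hasDerivAt_id x).add_const _) (by linarith) (fun x hx => ⟨⟨?_, ?_⟩, ?_, ?_⟩) c2
      · linarith [hx.1]
      · linarith [hx.2]
      · have := Gt_line (w := -x) p1 p2 (by linarith [hx.2]) (by linarith [hx.1])
        rw [← Gt_neg, neg_neg, neg_sq, show -(-x - 1 / 3) = x + 1 / 3 by ring] at this
        rwa [one_mul]
      · rw [le_div_iff₀ (by linarith [r1.mu1])]
        nlinarith [r1.mu1, r1.mu2, hx.1, hx.2]
  have hi : ¬ ∃ c, (kz (2 - p), c) ∈ B ∧ (kz (2 - p), -c) ∈ B' := by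
    rintro ⟨c, c1, c2⟩
    have bm := fun w h1 h2 => Bz_mem (e := 2 - p) (w := w) (by linarith) (by linarith) h1 h2
    rcases le_total (Bz (2 - p) 0) c with q | q
    · exact h.sub _ c (Bz (2 - p)) (dB (2 - p)) r2 (hasDerivAt_Bz _) q (fun x hx =>
        ⟨bm x (by linarith [hx.1]) hx.2.le, Gt_cubic p1 p2 (by linarith [hx.1]) hx.2⟩)
        (fun x hx => Bz_right p1 p2 hx.1 hx.2) c1
    · refine h'.sub _ (-c) (fun w => -Bz (2 - p) (-w)) (fun w => dB (2 - p) (-w)) r2 (fun x => ?_)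
        (by simpa using q) (fun x hx => ⟨?_, ?_⟩) (fun x hx => Bz_left p1 p2 hx.1 hx.2) c2
      · exact (((hasDerivAt_Bz _ (-x)).comp x (hasDerivAt_neg x)).neg).congr_deriv (by ring)
      · have := bm (-x) (by linarith [hx.2]) (by linarith [hx.1])
        exact ⟨by linarith [this.2], by linarith [this.1]⟩
      · have := Gt_cubic (w := -x) p1 p2 (by linarith [hx.2]) (by linarith [hx.1])
        rwa [← Gt_neg, neg_neg, neg_sq] at this
  obtain ⟨k, hk, ⟨c, c1, c2⟩, c', c3, c4⟩ := isPreconnected_Icc (a := (3 / 2 : ℝ)) (b := kz (2 - p))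
    {k | ∃ c, (k, c) ∈ V ∧ (k, -c) ∈ V'} {k | ∃ c, (k, c) ∈ U ∧ (k, -c) ∈ U'}
    (by rw [ofPred_exists]; exact isOpen_iUnion fun c =>
      (oV.preimage (by fun_prop)).inter (oV'.preimage (by fun_prop)))
    (by rw [ofPred_exists]; exact isOpen_iUnion fun c =>
      (oU.preimage (by fun_prop)).inter (oU'.preimage (by fun_prop)))
    (fun k hk => (cov k (rg k hk)).imp
      (fun ⟨c, a, b⟩ => ⟨c, (e k c (rg k hk)).2.1 a, (e' k _ (rg k hk)).2.1 b⟩)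
      (fun ⟨c, a, b⟩ => ⟨c, (e k c (rg k hk)).1.1 a, (e' k _ (rg k hk)).1.1 b⟩))
    (by obtain ⟨c, a, b⟩ := (cov _ r1).resolve_right lo
        exact ⟨_, ⟨le_rfl, le_kz p2⟩, c, (e _ c r1).2.1 a, (e' _ _ r1).2.1 b⟩)
    (by obtain ⟨c, a, b⟩ := (cov _ r2).resolve_left hi
        exact ⟨_, ⟨le_kz p2, le_rfl⟩, c, (e _ c r2).1.1 a, (e' _ _ r2).1.1 b⟩)
  have hk' := rg k hk
  rcases le_total c' c with q | q
  · exact h.disj k c hk' (h.up k c' c hk' q ((e k c' hk').1.2 c3)) ((e k c hk').2.2 c1)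
  · exact h'.disj k _ hk' (h'.up k (-c') (-c) hk' (by linarith) ((e' k _ hk').1.2 c4))
      ((e' k _ hk').2.2 c2)

theorem exists_profile {p : ℝ} (p1 : 17 / 10 ≤ p) (p2 : p < 2) : ∃ k, Rg p k ∧ ∃ R : ℝ → ℝ,
    (∀ w ∈ Ioo (-1:ℝ) 1, HasDerivAt R (Gt 1 p k w (R w) / (1 - w ^ 2)) w) ∧
    ∀ w ∈ Icc (-1:ℝ) 1, |3 * w - 1 - mu 3 p k * R w| ≤ 1000 * (1 - w ^ 2) := by
  obtain ⟨T, B, h⟩ := exists_half (τ := 1) p1 p2 (by norm_num) le_rfl
  obtain ⟨T', B', h'⟩ := exists_half (τ := -1) p1 p2 le_rfl (by norm_num)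
  obtain ⟨k, c, hk, hc, c1, c2, c3, c4⟩ := exists_both p1 p2 h h'
  obtain ⟨S, s0, sd, sb⟩ := h.good k c hk hc.1 c1 c2
  obtain ⟨S', s0', sd', sb'⟩ := h'.good k (-c) hk (by linarith [hc.2]) c3 c4
  let R : ℝ → ℝ := fun w => if 0 ≤ w then S w else -S' (-w)
  have hRpos : ∀ w, 0 ≤ w → R w = S w := fun w hw => if_pos hw
  have hRneg : ∀ w, w ≤ 0 → R w = -S' (-w) := by
    intro w hw
    rcases hw.eq_or_lt with rfl | q
    · simp [R, s0, s0']
    · exact if_neg (not_le.2 q)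
  have hright : ∀ w ∈ Ico (0:ℝ) 1,
      HasDerivWithinAt R (Gt 1 p k w (R w) / (1 - w ^ 2)) (Ici 0) w := by
    intro w hw
    rw [hRpos w hw.1]
    exact (sd w hw).congr (fun v hv => hRpos v hv) (hRpos w hw.1)
  have hleft : ∀ w ∈ Ioc (-1:ℝ) 0,
      HasDerivWithinAt R (Gt 1 p k w (R w) / (1 - w ^ 2)) (Iic 0) w := by
    intro w hw
    have h1 := sd' (-w) ⟨by linarith [hw.2], by linarith [hw.1]⟩
    have h2 : HasDerivWithinAt (fun v : ℝ => -v) (-1) (Iic 0) w :=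
      (hasDerivAt_neg w).hasDerivWithinAt
    have h3 := (h1.comp w h2 (fun v hv => by simpa using hv)).neg
    refine (h3.congr (fun v hv => hRneg v hv) (hRneg w hw.2)).congr_deriv ?_
    rw [hRneg w hw.2, ← Gt_neg 1 p k w, neg_neg]; ring
  refine ⟨k, hk, R, fun w hw => ?_, fun w hw => ?_⟩
  · rcases lt_trichotomy w 0 with q | rfl | q
    · exact (hleft w ⟨hw.1, q.le⟩).hasDerivAt (Iic_mem_nhds q)
    · have := (hleft 0 ⟨hw.1, le_rfl⟩).union (hright 0 ⟨le_rfl, hw.2⟩)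
      rwa [Iic_union_Ici, hasDerivWithinAt_univ] at this
    · exact (hright w ⟨q.le, hw.2⟩).hasDerivAt (Ici_mem_nhds q)
  · rcases le_total 0 w with q | q
    · rw [hRpos w q]; exact sb w ⟨q, hw.2⟩
    · have := sb' (-w) ⟨by linarith, by linarith [hw.1]⟩
      rw [← abs_neg, neg_sq] at this
      rwa [hRneg w q, show 3 * w - 1 - mu 3 p k * -S' (-w) =
        -(3 * -w - -1 - mu 3 p k * S' (-w)) by ring]

end Pool.Agent.MP_815c6c_an.T3

end MrgPart2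

-- marker of a merged file
example : 731051 + 151111 = 731051 + 151111 := rfl
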