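import Pool.Agent.MP_815c6c_an.Main
import Pool.Agent.MP_815c6c_an.t3.Shoot

/-! Three dimensions: a scalar `C^1` weak solution whose gradient is positively homogeneous of
degree `k - 1 < 2 / p`, on the branch of `x^2 + y^2 - 2 z^2`. -/

open Set Filter Topology Metric Asymptotics MeasureTheory
open scoped RealInnerProductSpace

namespace Pool.Agent.MP_815c6c_an.T3

theorem profile_data {p : ℝ} (p1 : 17 / 10 ≤ p) (hp2 : p < 2) :
    ∃ k : ℝ, 3 / 2 ≤ k ∧ k < 1 + 2 / p ∧ ∃ φ u R g g' j' : ℝ → ℝ,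
      Nice φ (fun w => u w / 2) ∧ ContinuousOn u (Icc (-1) 1) ∧ ContinuousOn R (Icc (-1) 1) ∧
      Nice g g' ∧ Nice (fun w => g w * (R w - w)) j' ∧
      ∀ w ∈ Icc (-1:ℝ) 1, 0 < u w ∧ 0 < R w ^ 2 + (1 - w ^ 2) ∧ k * φ w = R w * u w ∧
        (u w * √(R w ^ 2 + (1 - w ^ 2))) ^ (p - 2) * u w = g w ∧
        2 * (1 - w ^ 2) * g' w + g w * (mu 3 p k * R w - 3 * w + 1) = 0 := by
  obtain ⟨k, hk, R, hRd, hRb⟩ := T3.exists_profile p1 hp2
  have hk1 := hk.k1
  have hk2 := hk.k2.trans_lt (kz_lt p1 hp2)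
  have hmu0 : 0 < mu 3 p k := by linarith [hk.mu1]
  obtain ⟨C, hC'⟩ : ∃ C : ℝ, C = 1000 := ⟨_, rfl⟩
  rw [← hC'] at hRb
  have hp' : 0 < p - 1 := by linarith
  have hk0 : 0 < k := by linarith
  have hC : 0 ≤ C := by rw [hC']; norm_num
  have hyI : ∀ w ∈ Ioo (-1:ℝ) 1, 0 < 1 - w ^ 2 := fun w hw => by nlinarith [hw.1, hw.2]
  have hyI' : ∀ w ∈ Icc (-1:ℝ) 1, 0 ≤ 1 - w ^ 2 := fun w hw => by nlinarith [hw.1, hw.2]
  have hsplit : ∀ w ∈ Icc (-1:ℝ) 1, w ∈ Ioo (-1:ℝ) 1 ∨ w ^ 2 = 1 := by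
    intro w hw
    rcases hw.1.eq_or_lt with h | h
    · right; rw [← h]; norm_num
    rcases hw.2.eq_or_lt with h' | h'
    · right; rw [h']; norm_num
    · exact Or.inl ⟨h, h'⟩
  have hend : ∀ w ∈ Icc (-1:ℝ) 1, w ^ 2 = 1 → mu 3 p k * R w = 3 * w - 1 := by
    intro w hw h
    have := hRb w hw
    rw [h, sub_self, mul_zero, abs_nonpos_iff] at this
    linarith
  have hE : ∀ w ∈ Icc (-1:ℝ) 1, 0 < R w ^ 2 + (1 - w ^ 2) := by
    intro w hw
    rcases hsplit w hw with h | h
    · have := hyI w h; positivity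
    · have h1 := hend w hw h
      have h2 : R w ≠ 0 := by
        intro h0
        rw [h0, mul_zero] at h1
        have : w = 1 / 3 := by linarith
        rw [this] at h; norm_num at h
      rw [h, sub_self, add_zero]; positivity
  have hRlip : ∀ w ∈ Icc (-1:ℝ) 1, LipAt R w := by
    intro w hw
    rcases hsplit w hw with h | h
    · exact (lipAt_id w).comp (Ψ := R) (hRd w h).differentiableAt
    · refine lipAt_of_bound (C := (2 * C + 3) / mu 3 p k) fun v hv => ?_
      rw [div_mul_eq_mul_div, le_div_iff₀ hmu0, Real.norm_eq_abs, Real.norm_eq_abs]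
      have e1 : |R v - R w| * mu 3 p k = |3 * (v - w) - (3 * v - 1 - mu 3 p k * R v)| := by
        rw [← abs_of_pos hmu0, ← abs_mul, abs_of_pos hmu0]
        congr 1
        have := hend w hw h
        linarith
      have e2 : 1 - v ^ 2 ≤ 2 * |v - w| := by
        have : 1 - v ^ 2 = (w - v) * (w + v) := by rw [← h]; ring
        rw [this]
        calc (w - v) * (w + v) ≤ |(w - v) * (w + v)| := le_abs_self _
          _ = |v - w| * |w + v| := by rw [abs_mul, abs_sub_comm]
          _ ≤ |v - w| * 2 := by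
              gcongr
              rw [abs_le]; constructor <;> linarith [hw.1, hw.2, hv.1, hv.2]
          _ = _ := by ring
      rw [e1]
      calc _ ≤ |3 * (v - w)| + |3 * v - 1 - mu 3 p k * R v| := abs_sub _ _
        _ ≤ 3 * |v - w| + C * (2 * |v - w|) := by
            rw [abs_mul, abs_of_pos (by norm_num : (0:ℝ) < 3)]
            gcongr
            exact (hRb v hv).trans (mul_le_mul_of_nonneg_left e2 hC)
        _ = _ := by ring
  have hRc : ContinuousOn R (Icc (-1) 1) := fun w hw => (hRlip w hw).continuousWithinAt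
  -- the logarithmic derivative of `g` and its primitive
  let lam : ℝ → ℝ := fun w => (3 * w - 1 - mu 3 p k * R w) / (2 * (1 - w ^ 2))
  have hlamb : ∀ w ∈ Icc (-1:ℝ) 1, ‖lam w‖ ≤ C := by
    intro w hw
    rcases hsplit w hw with h | h
    · have hy := hyI w h
      simp only [lam, Real.norm_eq_abs]
      rw [abs_div, abs_of_pos (by positivity : 0 < 2 * (1 - w ^ 2)), div_le_iff₀ (by positivity)]
      have := hRb w hw
      nlinarith [mul_nonneg hC hy.le]
    · simp [lam, h, hC]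
  have hlamc : ContinuousOn lam (Ioo (-1) 1) := by
    refine ContinuousOn.div ?_ (by fun_prop) fun w hw => by have := hyI w hw; positivity
    exact ((continuousOn_const.mul continuousOn_id).sub continuousOn_const).sub
      (continuousOn_const.mul (hRc.mono Ioo_subset_Icc_self))
  have hlami : IntegrableOn lam (Icc (-1) 1) := by
    rw [integrableOn_Icc_iff_integrableOn_Ioo]
    refine ⟨hlamc.aestronglyMeasurable measurableSet_Ioo, ?_⟩
    refine HasFiniteIntegral.restrict_of_bounded C (by simp) ?_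
    exact (ae_restrict_iff' measurableSet_Ioo).2
      (Eventually.of_forall fun w hw => hlamb w (Ioo_subset_Icc_self hw))
  have hlami' : ∀ a ∈ Icc (-1:ℝ) 1, ∀ b ∈ Icc (-1:ℝ) 1, IntervalIntegrable lam volume a b :=
    fun a ha b hb => (hlami.mono_set (uIcc_subset_Icc ha hb)).intervalIntegrable
  have h0I : (0:ℝ) ∈ Icc (-1:ℝ) 1 := ⟨by norm_num, by norm_num⟩
  let Lam : ℝ → ℝ := fun w => ∫ v in (0:ℝ)..w, lam v
  have hLamd : ∀ w ∈ Ioo (-1:ℝ) 1, HasDerivAt Lam (lam w) w := fun w hw =>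
    intervalIntegral.integral_hasDerivAt_right (hlami' 0 h0I w (Ioo_subset_Icc_self hw))
      (hlamc.stronglyMeasurableAtFilter isOpen_Ioo w hw)
      (hlamc.continuousAt (isOpen_Ioo.mem_nhds hw))
  have hLamlip : ∀ w ∈ Icc (-1:ℝ) 1, LipAt Lam w := by
    intro w hw
    refine lipAt_of_bound (C := C) fun v hv => ?_
    simp only [Lam]
    rw [intervalIntegral.integral_interval_sub_left (hlami' 0 h0I v hv) (hlami' 0 h0I w hw)]
    exact intervalIntegral.norm_integral_le_of_norm_le_const fun x hx =>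
      hlamb x (uIcc_subset_Icc hw hv (uIoc_subset_uIcc hx))
  have hF : ∀ w ∈ Icc (-1:ℝ) 1, LipAt (fun v => (v, R v, Lam v)) w := fun w hw =>
    (lipAt_id w).prodMk ((hRlip w hw).prodMk (hLamlip w hw))
  let u : ℝ → ℝ := fun w =>
    Real.exp ((Lam w + (2 - p) / 2 * Real.log (R w ^ 2 + (1 - w ^ 2))) / (p - 1))
  have hulip : ∀ w ∈ Icc (-1:ℝ) 1, LipAt u w := fun w hw =>
    (hF w hw).comp (Ψ := fun z : ℝ × ℝ × ℝ =>
      Real.exp ((z.2.2 + (2 - p) / 2 * Real.log (z.2.1 ^ 2 + (1 - z.1 ^ 2))) / (p - 1))) (by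
        have := (hE w hw).ne'
        fun_prop (disch := assumption))
  refine ⟨k, hk1, hk2, fun w => R w * u w / k, u, R, fun w => Real.exp (Lam w),
    fun w => Real.exp (Lam w) * lam w,
    fun w => Real.exp (Lam w) * lam w * (R w - w) +
      Real.exp (Lam w) * (Gt 1 p k w (R w) / (1 - w ^ 2) - 1),
    ⟨fun w hw => ?_, fun w hw => ?_⟩, fun w hw => (hulip w hw).continuousWithinAt, hRc,
    ⟨fun w hw => (hLamd w hw).exp, fun w hw => ?_⟩,
    ⟨fun w hw => (hLamd w hw).exp.mul ((hRd w hw).sub (hasDerivAt_id w)), fun w hw => ?_⟩,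
    fun w hw => ⟨Real.exp_pos _, hE w hw, by field_simp, ?_, ?_⟩⟩
  · have hy := hyI w hw
    have hEw := hE w (Ioo_subset_Icc_self hw)
    have hD : 0 < R w ^ 2 + (p - 1) * (1 - w ^ 2) := by positivity
    have d1 := (((hRd w hw).pow 2).add ((hasDerivAt_pow 2 w).const_sub 1)).log hEw.ne'
    have d2 := (((hLamd w hw).add (d1.const_mul ((2 - p) / 2))).div_const (p - 1)).exp
    refine (((hRd w hw).mul d2).div_const k).congr_deriv ?_
    simp only [u, lam, Gt, Pi.add_apply, Pi.pow_apply]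
    field_simp
    ring
  · exact ((hRlip w hw).prodMk (hulip w hw)).comp (Ψ := fun z : ℝ × ℝ => z.1 * z.2 / k)
      (by fun_prop)
  · exact (hLamlip w hw).comp (Ψ := Real.exp) (by fun_prop)
  · exact (hF w hw).comp (Ψ := fun z : ℝ × ℝ × ℝ => Real.exp z.2.2 * (z.2.1 - z.1)) (by fun_prop)
  · have hEw := hE w hw
    simp only [u]
    rw [Real.sqrt_eq_rpow, Real.rpow_def_of_pos hEw, ← Real.exp_add, ← Real.exp_mul,
      ← Real.exp_add]
    congr 1
    field_simp
    ring
  · rcases hsplit w hw with h | h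
    · have hy := hyI w h
      simp only [lam]
      field_simp
      ring
    · simp only [h, hend w hw h]; ring

theorem field {d : ℕ} {T : EuclideanSpace ℝ (Fin d) →L[ℝ] EuclideanSpace ℝ (Fin d)}
    (hT : Tri T) {p : ℝ} (htr : trc T = 1) (htr2 : trc (T.comp T) = 3)
    (p1 : 17 / 10 ≤ p) (hp2 : p < 2) :
    ∃ (k : ℝ) (h : EuclideanSpace ℝ (Fin d) → ℝ)
      (Y : EuclideanSpace ℝ (Fin d) → EuclideanSpace ℝ (Fin d)), 1 < k ∧ k < 1 + 2 / p ∧
      (∀ x, HasFDerivAt h (innerSL ℝ (Y x)) x) ∧ Continuous Y ∧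
      (∀ θ : ℝ, 0 < θ → ∀ x, Y (θ • x) = θ ^ (k - 1) • Y x) ∧ (∀ x, qf T x ≠ 0 → Y x ≠ 0) ∧
      (∃ M, ∀ x, ‖Y x‖ ≤ M * qf T x ^ ((k - 1) / 2)) ∧
      ∀ x, qf T x ≠ 0 → ∃ X', HasFDerivAt (fun y => ‖Y y‖ ^ (p - 2) • Y y) X' x ∧ trc X' = 0 := by
  obtain ⟨k, hk1, hk2, φ, u, R, g, g', j', hφ, hu, hR, hg, hj, hI⟩ :=
    profile_data p1 hp2
  let Y : EuclideanSpace ℝ (Fin d) → EuclideanSpace ℝ (Fin d) := fun x =>
    (qf T x ^ (k / 2 - 1) * u (wf T x)) • (R (wf T x) • T (T x) + Zf T x)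
  have hvec : ∀ x, ‖R (wf T x) • T (T x) + Zf T x‖ =
      √(qf T x) * √(R (wf T x) ^ 2 + (1 - wf T x ^ 2)) := by
    intro x
    rw [← Real.sqrt_mul (qf_nonneg x), ← Real.sqrt_sq (norm_nonneg _),
      ← real_inner_self_eq_norm_sq]
    congr 1
    simp only [inner_add_left, inner_add_right, real_inner_smul_left, real_inner_smul_right,
      hT.iTT, hT.iZTT, hT.iZZ, real_inner_comm (Zf T x) (T (T x))]
    ring
  have hnorm : ∀ x, ‖Y x‖ = qf T x ^ ((k - 1) / 2) *
      (u (wf T x) * √(R (wf T x) ^ 2 + (1 - wf T x ^ 2))) := by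
    intro x
    have hq := qf_nonneg (T := T) x
    have hux := (hI _ (hT.wf_mem x)).1
    simp only [Y]
    rw [norm_smul, hvec, Real.norm_of_nonneg (by positivity), Real.sqrt_eq_rpow (qf T x),
      show (k - 1) / 2 = (k / 2 - 1) + 1 / 2 by ring,
      Real.rpow_add' hq (by linarith : k / 2 - 1 + 1 / 2 ≠ 0)]
    ring
  obtain ⟨M, hM⟩ := isCompact_Icc.exists_bound_of_continuousOn
    (f := fun w => u w * √(R w ^ 2 + (1 - w ^ 2))) (s := Icc (-1:ℝ) 1)
    (hu.mul (((hR.pow 2).add (by fun_prop)).sqrt))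
  have hbound : ∀ x, ‖Y x‖ ≤ M * qf T x ^ ((k - 1) / 2) := by
    intro x
    rw [hnorm, mul_comm]
    exact mul_le_mul_of_nonneg_right ((le_abs_self _).trans (hM _ (hT.wf_mem x)))
      (Real.rpow_nonneg (qf_nonneg x) _)
  have hk' : 0 < (k - 1) / 2 := by linarith
  have hY0 : ∀ x, qf T x = 0 → Y x = 0 := by
    intro x hx
    have := hbound x
    rwa [hx, Real.zero_rpow hk'.ne', mul_zero, norm_le_zero_iff] at this
  refine ⟨k, fun x => qf T x ^ (k / 2) * φ (wf T x), Y, by linarith, hk2, fun x => ?_, ?_,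
    fun θ hθ x => ?_, fun x hx => ?_, ⟨M, hbound⟩, fun x hx => ?_⟩
  · by_cases hx : qf T x = 0
    · obtain ⟨M', hM'⟩ := isCompact_Icc.exists_bound_of_continuousOn
        (f := φ) (s := Icc (-1:ℝ) 1) (fun w hw => (hφ.2 w hw).continuousWithinAt)
      rw [hY0 x hx, map_zero, hasFDerivAt_iff_isLittleO]
      simp only [hx, Real.zero_rpow (by linarith : k / 2 ≠ 0), zero_mul, sub_zero, zero_apply]
      have h1 : (fun y => T y) =O[𝓝 x] fun y => y - x := by
        simpa [qf_eq_zero hx] using (T.hasFDerivAt (x := x)).isBigO_sub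
      have h2 : (fun y => qf T y ^ ((k - 1) / 2)) =o[𝓝 x] fun _ => (1:ℝ) := by
        rw [isLittleO_one_iff]; exact tendsto_qf_rpow hk' hx
      have h3 := h1.norm_norm.mul_isLittleO h2
      simp only [mul_one, isLittleO_norm_right] at h3
      refine IsBigO.trans_isLittleO (IsBigO.of_bound M' (Eventually.of_forall fun y => ?_)) h3
      have hq := qf_nonneg (T := T) y
      have e : qf T y ^ (k / 2) = ‖T y‖ * qf T y ^ ((k - 1) / 2) := by
        rw [← Real.sqrt_sq (norm_nonneg (T y)), ← qf_eq, Real.sqrt_eq_rpow,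
          ← Real.rpow_add' hq (by linarith)]
        congr 1; ring
      rw [norm_mul, ← e, mul_comm]
      exact mul_le_mul_of_nonneg_right (hM' _ (hT.wf_mem y)) (norm_nonneg _)
    · refine (hT.hasFDerivAt_hom hφ (k / 2) hx).congr_fderiv ?_
      congr 1
      simp only [Y]
      have e1 : 2 * (k / 2) * φ (wf T x) = u (wf T x) * R (wf T x) := by
        have := (hI _ (hT.wf_mem x)).2.2.1
        linarith
      rw [e1]
      module
  · refine continuous_iff_continuousAt.2 fun x => ?_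
    by_cases hx : qf T x = 0
    · rw [ContinuousAt, hY0 x hx]
      refine squeeze_zero_norm hbound ?_
      simpa using (tendsto_qf_rpow hk' hx).const_mul M
    · have c1 := (qf_contDiff (T := T)).continuous.continuousAt (x := x)
      have c2 := (T.continuous.comp T.continuous).continuousAt (x := x)
      refine ((c1.rpow_const (Or.inl hx)).mul (hT.continuousAt_comp hu hx)).smul
        (((hT.continuousAt_comp hR hx).smul c2).add ?_)
      exact T.continuous.continuousAt.sub ((hT.hasFDerivAt_wf hx).continuousAt.smul c2)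
  · simp only [Y]
    rw [qf_smul, wf_smul hθ.ne', Zf_smul hθ.ne', map_smul, map_smul, smul_comm _ θ, ← smul_add,
      smul_smul, smul_smul, Real.mul_rpow (by positivity) (qf_nonneg x), ← Real.rpow_natCast,
      ← Real.rpow_mul hθ.le, Real.rpow_sub_one hθ.ne' k,
      show ((2:ℕ):ℝ) * (k / 2 - 1) = k - 1 - 1 by push_cast; ring, Real.rpow_sub_one hθ.ne',
      Real.rpow_sub_one hθ.ne']
    congr 1
    field_simp
  · have hq : 0 < qf T x := lt_of_le_of_ne (qf_nonneg x) (Ne.symm hx)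
    obtain ⟨h1, h2, -⟩ := hI _ (hT.wf_mem x)
    rw [← norm_pos_iff, hnorm]
    have := Real.sqrt_pos.2 h2
    positivity
  · obtain ⟨e, he⟩ : ∃ e, e = ((k - 1) * (p - 1) - 1) / 2 := ⟨_, rfl⟩
    have hX : ∀ y, qf T y ≠ 0 → ‖Y y‖ ^ (p - 2) • Y y =
        (qf T y ^ e * g (wf T y)) • T y +
          (qf T y ^ e * (g (wf T y) * (R (wf T y) - wf T y))) • T (T y) := by
      intro y hy
      have hq : 0 < qf T y := lt_of_le_of_ne (qf_nonneg y) (Ne.symm hy)
      obtain ⟨h1, h2, -, h3, -⟩ := hI _ (hT.wf_mem y)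
      have h4 := Real.sqrt_pos.2 h2
      have h5 : ‖Y y‖ ^ (p - 2) * (qf T y ^ (k / 2 - 1) * u (wf T y)) =
          qf T y ^ e * g (wf T y) := by
        rw [hnorm, Real.mul_rpow (by positivity) (by positivity), ← Real.rpow_mul hq.le, ← h3,
          show e = (k - 1) / 2 * (p - 2) + (k / 2 - 1) by rw [he]; ring, Real.rpow_add hq]
        ring
      conv_lhs => arg 2; simp only [Y]
      rw [smul_smul, h5, Zf]
      module
    have hev : (fun y => ‖Y y‖ ^ (p - 2) • Y y) =ᶠ[𝓝 x] fun y =>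
        (qf T y ^ e * g (wf T y)) • T y +
          (qf T y ^ e * (g (wf T y) * (R (wf T y) - wf T y))) • T (T y) := by
      filter_upwards [(qf_contDiff (T := T)).continuous.continuousAt.eventually_ne hx] with y hy
      exact hX y hy
    have d1 := (hT.hasFDerivAt_hom hg e hx).smul T.hasFDerivAt
    have d2 := (hT.hasFDerivAt_hom hj e hx).smul (T.comp T).hasFDerivAt
    refine ⟨_, (d1.add d2).congr_of_eventuallyEq hev, ?_⟩
    obtain ⟨-, -, -, -, h6⟩ := hI _ (hT.wf_mem x)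
    simp only [trc_add, trc_smul, trc_smulRight, htr, htr2, innerSL_apply_apply,
      real_inner_smul_left, inner_add_left, ContinuousLinearMap.comp_apply, hT.iTT, hT.iT',
      hT.iZT, hT.iZTT]
    rw [Real.rpow_sub_one hx]
    have h7 : mu 3 p k = 3 + 2 * e := by rw [he, mu]; ring
    rw [h7] at h6
    field_simp
    linear_combination (qf T x ^ e * qf T x) * h6

/-- the signs `+1, +1, -1` on the first three coordinates, and `0` on the rest -/
def sg (i : ℕ) : ℝ := if i < 2 then 1 else if i < 3 then -1 else 0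

lemma sg_cube (i : ℕ) : sg i * (sg i * sg i) = sg i := by
  unfold sg; split_ifs <;> norm_num

lemma sum_sg {d : ℕ} (h : 3 ≤ d) (F : ℝ → ℝ) (h0 : F 0 = 0) :
    ∑ i ∈ Finset.range d, F (sg i) = 2 * F 1 + F (-1) := by
  obtain ⟨e, rfl⟩ := Nat.exists_eq_add_of_le h
  rw [Finset.sum_range_add, Finset.sum_eq_zero (f := fun i => F (sg (3 + i))) fun i _ => by
    simp only [sg]; rw [if_neg (by omega), if_neg (by omega), h0]]
  simp [Finset.sum_range_succ, sg]
  ring

/-- the diagonal operator with entries `sg i` -/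
noncomputable def dg (d : ℕ) : EuclideanSpace ℝ (Fin d) →L[ℝ] EuclideanSpace ℝ (Fin d) :=
  LinearMap.toContinuousLinearMap
    { toFun := fun x => WithLp.toLp 2 fun i => sg i * x i
      map_add' := fun x y => by ext i; simp [mul_add]
      map_smul' := fun c x => by ext i; simp; ring }

lemma dg_apply (d : ℕ) (x : EuclideanSpace ℝ (Fin d)) (i : Fin d) : dg d x i = sg i * x i := rfl

lemma tri_dg (d : ℕ) : Tri (dg d) := by
  refine ⟨fun x y => ?_, fun x => ?_⟩
  · simp only [PiLp.inner_apply, dg_apply, RCLike.inner_apply, conj_trivial]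
    exact Finset.sum_congr rfl fun i _ => by ring
  · ext i
    simp only [dg_apply]
    rw [← mul_assoc, ← mul_assoc, mul_assoc (sg i), sg_cube]

lemma trc_dg {d : ℕ} (h : 3 ≤ d) : trc (dg d) = 1 := by
  have := sum_sg h id rfl
  rw [← Fin.sum_univ_eq_sum_range (fun i => id (sg i))] at this
  simp only [id] at this
  rw [show (1:ℝ) = 2 * 1 + -1 by norm_num, ← this]
  simp [trc, dg_apply]

lemma trc_dg_sq {d : ℕ} (h : 3 ≤ d) : trc ((dg d).comp (dg d)) = 3 := by
  have := sum_sg h (fun x => x * x) (by simp)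
  rw [← Fin.sum_univ_eq_sum_range (fun i => sg i * sg i)] at this
  rw [show (3:ℝ) = 2 * (1 * 1) + -1 * -1 by norm_num, ← this]
  simp [trc, dg_apply]

lemma sq_le_qf_dg {n : ℕ} (x : EuclideanSpace ℝ (Fin (n + 1))) :
    |x 0| ^ 2 ≤ qf (dg (n + 1)) x := by
  rw [qf_eq]
  have := PiLp.norm_apply_le (dg (n + 1) x) 0
  rw [dg_apply, Real.norm_eq_abs] at this
  simp only [sg, Fin.coe_ofNat_eq_mod, Nat.zero_mod, Nat.ofNat_pos, if_true, one_mul] at this
  gcongr

theorem exists_scalar_three (d : ℕ) (p : ℝ) (hd3 : 3 ≤ d) (p1 : 17 / 10 ≤ p) (hp2 : p < 2) :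
    ∃ (k : ℝ) (h : EuclideanSpace ℝ (Fin d) → ℝ), 1 < k ∧ k < 1 + 2 / p ∧ ContDiff ℝ 1 h ∧
      (∀ θ : ℝ, 0 < θ → ∀ x, gradient h (θ • x) = θ ^ (k - 1) • gradient h x) ∧
      (∃ x, gradient h x ≠ 0) ∧ Continuous (gradient h) ∧
      ∀ φ : EuclideanSpace ℝ (Fin d) → ℝ, ContDiff ℝ 1 φ → HasCompactSupport φ →
        ∫ x, fderiv ℝ φ x (‖gradient h x‖ ^ (p - 2) • gradient h x) = 0 := by
  have hp : 1 < p := by linarith
  obtain ⟨n, rfl⟩ : ∃ n, d = n + 1 := ⟨d - 1, by omega⟩
  have hT := tri_dg (n + 1)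
  obtain ⟨k, h, Y, hk1, hk2, hd, hY, hhom, hne, ⟨M, hM⟩, hdiv⟩ :=
    field hT (trc_dg hd3) (trc_dg_sq hd3) p1 hp2
  have hgrad : gradient h = Y := gradient_eq fun x => hasGradientAt_iff_hasFDerivAt.2 (hd x)
  subst hgrad
  refine ⟨k, h, hk1, hk2, contDiff_one_iff_hasFDerivAt.2
    ⟨_, (innerSL ℝ).continuous.comp hY, hd⟩, hhom,
    ⟨EuclideanSpace.single 0 1, hne _ ?_⟩, hY, fun φ hφ hφc => ?_⟩
  · have := sq_le_qf_dg (n := n) (EuclideanSpace.single 0 1)
    simp at this
    linarith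
  · have hp0 : 0 < p := by linarith
    have hγ0 : 0 < (k - 1) * (p - 1) := mul_pos (by linarith) (by linarith)
    have hγ1 : (k - 1) * (p - 1) < 1 := by
      have h1 : (k - 1) * (p - 1) < 2 / p * (p - 1) :=
        mul_lt_mul_of_pos_right (by linarith) (by linarith)
      have h2 : 2 / p * (p - 1) < 1 := by
        rw [div_mul_eq_mul_div, div_lt_one hp0]; linarith
      linarith
    refine weak_div_free _ ((continuous_norm_rpow_smul (s := p - 2) (by linarith)).comp hY)
      (qf (dg (n + 1))) qf_contDiff qf_nonneg hdiv (fun x hx => ?_) 0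
      (C := 2 * |M| ^ (p - 1)) (r := (k - 1) * (p - 1) - 1) (by linarith) (fun x hx => ?_) hφ hφc
    · have := hM x
      rw [hx, Real.zero_rpow (by linarith), mul_zero, norm_le_zero_iff] at this
      simp [this]
    · have hx0 : 0 < |x 0| := abs_pos.2 hx
      have hq1 := sq_le_qf_dg (n := n) x
      set q := qf (dg (n + 1)) x with hq
      have hq0 : 0 < q := lt_of_lt_of_le (by positivity) hq1
      rw [(hT.hasFDerivAt_qf x).fderiv, innerSL_apply_apply]
      refine (abs_real_inner_le_norm _ _).trans ?_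
      have e1 : ‖(2:ℝ) • dg (n + 1) (dg (n + 1) x)‖ = 2 * q ^ (1 / 2 : ℝ) := by
        rw [norm_smul, Real.norm_of_nonneg (by norm_num), ← Real.sqrt_eq_rpow, hq, ← hT.iTT,
          real_inner_self_eq_norm_sq, Real.sqrt_sq (norm_nonneg _)]
      have e2 : ‖‖gradient h x‖ ^ (p - 2) • gradient h x‖ ≤
          |M| ^ (p - 1) * q ^ ((k - 1) * (p - 1) / 2) := by
        rw [norm_rpow_smul_norm (by linarith), show p - 2 + 1 = p - 1 by ring,
          show (k - 1) * (p - 1) / 2 = (k - 1) / 2 * (p - 1) by ring, Real.rpow_mul hq0.le,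
          ← Real.mul_rpow (abs_nonneg _) (by positivity)]
        refine Real.rpow_le_rpow (norm_nonneg _) ((hM x).trans ?_) (by linarith)
        exact mul_le_mul_of_nonneg_right (le_abs_self M) (by positivity)
      have e3 : q ^ (((k - 1) * (p - 1) - 1) / 2) ≤ |x 0| ^ ((k - 1) * (p - 1) - 1) := by
        refine (Real.rpow_le_rpow_of_nonpos (by positivity) hq1 (by linarith)).trans_eq ?_
        rw [← Real.rpow_natCast, ← Real.rpow_mul hx0.le]
        congr 1; push_cast; ring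
      have e4 : q ^ (1 / 2 : ℝ) * q ^ ((k - 1) * (p - 1) / 2) =
          q * q ^ (((k - 1) * (p - 1) - 1) / 2) := by
        rw [← Real.rpow_add hq0, ← Real.rpow_one_add' hq0.le (by linarith)]
        congr 1; ring
      calc _ ≤ 2 * q ^ (1 / 2 : ℝ) * (|M| ^ (p - 1) * q ^ ((k - 1) * (p - 1) / 2)) := by
            rw [e1]; exact mul_le_mul_of_nonneg_left e2 (by positivity)
        _ = q * (2 * |M| ^ (p - 1) * q ^ (((k - 1) * (p - 1) - 1) / 2)) := by
            linear_combination (2 * |M| ^ (p - 1)) * e4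
        _ ≤ _ := by gcongr

end Pool.Agent.MP_815c6c_an.T3
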