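import Mathlib.Analysis.Calculus.LineDeriv.IntegrationByParts
import Mathlib.MeasureTheory.Function.LpSeminorm.Basic
import Pool.Agent.MP_815c6c_an.t3.Three

/-! The failure of the `C^1` property and of the linear decay in dimension three and more, in the
weak setting. -/

open Set Filter Topology Metric MeasureTheory
open scoped ContDiff

noncomputable section

namespace Pool.Agent.MP_815c6c_an.T3

abbrev E (d : ℕ) : Type := EuclideanSpace ℝ (Fin d)

/-- the mean oscillation -/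
def osc {d : ℕ} (f : E d → E d) (x : E d) (r : ℝ) : ℝ :=
  √(⨍ z in ball x r, ‖f z - ⨍ y in ball x r, f y‖ ^ 2)

/-- `h` is a weak solution on `U` with weak gradient `G` -/
def Harm {d : ℕ} (p : ℝ) (U : Set (E d)) (h : E d → ℝ) (G : E d → E d) : Prop :=
  (∀ K ⊆ U, IsCompact K → MemLp h (ENNReal.ofReal p) (volume.restrict K) ∧
    MemLp G (ENNReal.ofReal p) (volume.restrict K)) ∧
  ∀ φ : E d → ℝ, ContDiff ℝ ∞ φ → HasCompactSupport φ → tsupport φ ⊆ U →
    (∀ v, ∫ x, h x * fderiv ℝ φ x v = -∫ x, φ x * inner ℝ (G x) v) ∧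
    ∫ x, inner ℝ (‖G x‖ ^ (p - 2) • G x) (gradient φ x) = 0

/-- a `C^1` representative -/
def Rep {d : ℕ} (U : Set (E d)) (f : E d → E d) : Prop :=
  ∃ W : E d → E d, ContDiffOn ℝ 1 W U ∧ W =ᵐ[volume.restrict U] f

/-- linear decay with the constant `c` -/
def Dec {d : ℕ} (c : ℝ) (U : Set (E d)) (f : E d → E d) : Prop :=
  ∀ (x : E d) (r : ℝ), 0 < r → ball x r ⊆ U → MemLp f 2 (volume.restrict (ball x r)) →
    ∀ θ ∈ Ioc (0 : ℝ) 1, osc f x (θ * r) ≤ c * θ * osc f x r

theorem memLp_cont {d : ℕ} {F : Type} [NormedAddCommGroup F] {f : E d → F} (hf : Continuous f)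
    (q : ENNReal) {K : Set (E d)} (hK : IsCompact K) : MemLp f q (volume.restrict K) := by
  have : IsFiniteMeasure (volume.restrict K) := ⟨by simpa using hK.measure_lt_top⟩
  obtain ⟨C, hC⟩ := hK.exists_bound_of_continuousOn hf.continuousOn
  exact MemLp.of_bound hf.aestronglyMeasurable C
    ((ae_restrict_iff' hK.measurableSet).2 (Eventually.of_forall hC))

theorem three (d : ℕ) (p : ℝ) (hd : 3 ≤ d) (p1 : 17 / 10 ≤ p) (hp2 : p < 2) :
    ∃ (h : E d → ℝ) (G : E d → E d), ∀ U : Set (E d), Harm p U h G ∧ (IsOpen U → 0 ∈ U →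
      ¬ Rep U (fun x => ‖G x‖ ^ (p / 2 - 1) • G x) ∧
      ¬ ∃ c, Dec c U fun x => ‖G x‖ ^ (p / 2 - 1) • G x) := by
  obtain ⟨k, h, hk1, hk2, hh, hhom, ⟨x₁, hx₁⟩, hcont, hweak⟩ := exists_scalar_three d p hd p1 hp2
  have hp0 : 0 < p := by linarith
  have hβ0 : 0 < (k - 1) * p / 2 := by
    have : 0 < k - 1 := by linarith
    positivity
  have hβ1 : (k - 1) * p / 2 < 1 := by
    have : k - 1 < 2 / p := by linarith
    rw [lt_div_iff₀ hp0] at this
    linarith
  have hVc : Continuous fun x => ‖gradient h x‖ ^ (p / 2 - 1) • gradient h x :=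
    (continuous_norm_rpow_smul (s := p / 2 - 1) (by linarith)).comp hcont
  have hVh : ∀ θ : ℝ, 0 < θ → ∀ x, ‖gradient h (θ • x)‖ ^ (p / 2 - 1) • gradient h (θ • x) =
      θ ^ ((k - 1) * p / 2) • ‖gradient h x‖ ^ (p / 2 - 1) • gradient h x := by
    intro θ hθ x
    have h1 : 0 < θ ^ (k - 1) := Real.rpow_pos_of_pos hθ _
    rw [hhom θ hθ, norm_smul, Real.norm_of_nonneg h1.le,
      Real.mul_rpow h1.le (norm_nonneg _), ← Real.rpow_mul hθ.le, smul_smul, smul_smul,
      show (k - 1) * p / 2 = (k - 1) * (p / 2 - 1) + (k - 1) by ring, Real.rpow_add hθ]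
    congr 1; ring
  have hV1 : ‖gradient h x₁‖ ^ (p / 2 - 1) • gradient h x₁ ≠ 0 :=
    smul_ne_zero (Real.rpow_pos_of_pos (norm_pos_iff.2 hx₁) _).ne' hx₁
  refine ⟨h, gradient h, fun U => ⟨⟨fun K _ hK => ⟨memLp_cont hh.continuous _ hK,
    memLp_cont hcont _ hK⟩, fun φ hφ hφc _ => ?_⟩, fun hU h0 => ⟨?_, ?_⟩⟩⟩
  · have hφ1 : ContDiff ℝ 1 φ := hφ.of_le (by exact_mod_cast le_top)
    refine ⟨fun v => ?_, ?_⟩
    · have c1 : Continuous fun x => fderiv ℝ h x v :=
        (hh.continuous_fderiv one_ne_zero).clm_apply continuous_const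
      have c2 : Continuous fun x => fderiv ℝ φ x v :=
        (hφ1.continuous_fderiv one_ne_zero).clm_apply continuous_const
      rw [integral_mul_fderiv_eq_neg_fderiv_mul_of_integrable
        ((c1.mul hφ.continuous).integrable_of_hasCompactSupport hφc.mul_left)
        ((hh.continuous.mul c2).integrable_of_hasCompactSupport
          (hφc.fderiv_apply (𝕜 := ℝ) v).mul_left)
        ((hh.continuous.mul hφ.continuous).integrable_of_hasCompactSupport hφc.mul_left)
        (fun x _ => hh.differentiable one_ne_zero x) fun x _ => hφ1.differentiable one_ne_zero x]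
      simp only [inner_gradient_left, mul_comm]
    · rw [← hweak φ hφ1 hφc]
      congr 1; ext x; rw [real_inner_comm, inner_gradient_left]
  · exact homog_no_C1 hβ0 hβ1 hVc hVh hV1 hU h0
  · rintro ⟨c, hc⟩
    obtain ⟨ρ, hρ, hb⟩ := Metric.isOpen_iff.1 hU 0 h0
    exact homog_no_decay hβ0 hβ1 hVc hVh hV1 hρ ⟨c, hc 0 ρ hρ hb
      ((memLp_cont hVc 2 (isCompact_closedBall 0 ρ)).mono_measure
        (Measure.restrict_mono ball_subset_closedBall le_rfl))⟩

end Pool.Agent.MP_815c6c_an.T3
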