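import Mathlib.Analysis.Distribution.AEEqOfIntegralContDiff
import Mathlib.MeasureTheory.Integral.IntervalIntegral.FundThmCalculus
import Mathlib.MeasureTheory.Measure.Haar.InnerProductSpace
import Pool.Agent.MP_815c6c_an.t3.Dich

/-! Dimension one: the weak gradient is locally constant. -/

open Set Filter Topology Metric MeasureTheory
open scoped ContDiff

noncomputable section

namespace Pool.Agent.MP_815c6c_an.T3

theorem int_mul {f g : ℝ → ℝ} {U : Set ℝ} (hf : LocallyIntegrableOn f U) (hg : Continuous g)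
    (hc : HasCompactSupport g) (hU : tsupport g ⊆ U) : Integrable fun x => g x * f x :=
  (integrableOn_iff_integrable_of_support_subset
    ((Function.support_mul_subset_left g f).trans (subset_tsupport g))).1
    ((hf.integrableOn_compact_subset hU hc).continuousOn_mul hg.continuousOn hc)

/-- the lemma of du Bois-Reymond -/
theorem dbr {f : ℝ → ℝ} {a b : ℝ} (hab : a < b) (hf : LocallyIntegrableOn f (Ioo a b))
    (h : ∀ φ : ℝ → ℝ, ContDiff ℝ ∞ φ → HasCompactSupport φ → tsupport φ ⊆ Ioo a b →
      ∫ x, deriv φ x * f x = 0) : ∃ c, ∀ᵐ x, x ∈ Ioo a b → f x = c := by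
  obtain ⟨m, hm⟩ := nonempty_Ioo.2 hab
  obtain ⟨ψ, s1, s2, s3, s4, s5⟩ :=
    exists_contDiff_tsupport_subset (n := ⊤) (isOpen_Ioo.mem_nhds hm)
  have hI : 0 < ∫ x, ψ x := s3.continuous.integral_pos_of_hasCompactSupport_nonneg_nonzero s2
    (fun x => (s4 ⟨x, rfl⟩).1) (x := m) (by simp [s5])
  refine ⟨(∫ x, ψ x * f x) / ∫ x, ψ x, ?_⟩
  have key := isOpen_Ioo.ae_eq_zero_of_integral_contDiff_smul_eq_zero
    (f := fun x => f x - (∫ x, ψ x * f x) / ∫ x, ψ x)
    (hf.sub (continuousOn_const.locallyIntegrableOn measurableSet_Ioo)) ?_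
  · filter_upwards [key] with x hx hx' using sub_eq_zero.1 (hx hx')
  intro g g1 g2 g3
  have ig : Integrable g := g1.continuous.integrable_of_hasCompactSupport g2
  have iψ : Integrable ψ := s3.continuous.integrable_of_hasCompactSupport s2
  set l := (∫ x, g x) / ∫ x, ψ x with hl
  set χ : ℝ → ℝ := fun x => g x - l * ψ x with hχ
  have χ1 : ContDiff ℝ ∞ χ := g1.sub (contDiff_const.mul s3)
  have χ0 : ∫ x, χ x = 0 := by
    rw [integral_sub ig (iψ.const_mul l), integral_const_mul, hl]; field_simp; ring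
  have hK : IsCompact (tsupport g ∪ tsupport ψ) := g2.union s2
  have hne : (tsupport g ∪ tsupport ψ).Nonempty := ⟨m, Or.inr (subset_tsupport _ (by simp [s5]))⟩
  obtain ⟨a', ha'⟩ := hK.exists_isLeast hne
  obtain ⟨b', hb'⟩ := hK.exists_isGreatest hne
  have a1 := (union_subset g3 s1 ha'.1).1
  have b1 := (union_subset g3 s1 hb'.1).2
  have hs : ∀ t, χ t ≠ 0 → t ∈ Icc a' b' := by
    intro t ht
    have : t ∈ tsupport g ∪ tsupport ψ := by
      by_contra hn
      rw [mem_union, not_or] at hn
      exact ht (by simp [hχ, image_eq_zero_of_notMem_tsupport hn.1,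
        image_eq_zero_of_notMem_tsupport hn.2])
    exact ⟨ha'.2 this, hb'.2 this⟩
  have hd : ∀ x, HasDerivAt (fun x => ∫ t in a..x, χ t) (χ x) x := fun x =>
    (χ1.continuous.integral_hasStrictDerivAt a x).hasDerivAt
  have hd' : deriv (fun x => ∫ t in a..x, χ t) = χ := funext fun x => (hd x).deriv
  have hz : Function.support (fun x => ∫ t in a..x, χ t) ⊆ Icc a' b' := by
    intro x hx
    by_contra hn
    refine hx ?_
    rcases not_and_or.1 hn with h1 | h1
    · refine intervalIntegral.integral_zero_ae (Eventually.of_forall fun t ht => ?_)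
      by_contra h2
      have := (hs t h2).1
      have := ht.2.trans_lt (max_lt a1 (not_le.1 h1))
      linarith
    · rw [← χ0]
      refine intervalIntegral.integral_eq_integral_of_support_subset fun t ht => ?_
      exact ⟨a1.trans_le (hs t ht).1, (hs t ht).2.trans (not_le.1 h1).le⟩
  have hz' := closure_minimal hz isClosed_Icc
  have := h _ (contDiff_infty_iff_deriv.2 ⟨fun x => (hd x).differentiableAt, by rw [hd']; exact χ1⟩)
    (isCompact_Icc.of_isClosed_subset isClosed_closure hz') (hz'.trans (Icc_subset_Ioo a1 b1))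
  have i1 := int_mul hf g1.continuous g2 g3
  have i2 := int_mul hf s3.continuous s2 s1
  rw [hd'] at this
  simp only [hχ, sub_mul, mul_assoc] at this
  rw [integral_sub i1 (i2.const_mul l), integral_const_mul] at this
  simp only [smul_eq_mul, mul_sub]
  rw [integral_sub i1 (ig.mul_const _), integral_mul_const, ← this, hl]
  ring

theorem dbrE {A : E 1 → E 1} {x : E 1} {r : ℝ} (hr : 0 < r)
    (hA : ∀ K ⊆ ball x r, IsCompact K → IntegrableOn A K)
    (h : ∀ φ : E 1 → ℝ, ContDiff ℝ ∞ φ → HasCompactSupport φ → tsupport φ ⊆ ball x r →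
      ∫ y, inner ℝ (A y) (gradient φ y) = 0) : ∃ c, ∀ᵐ y, y ∈ ball x r → A y = c := by
  set e : ℝ ≃ₗᵢ[ℝ] E 1 := (OrthonormalBasis.singleton (Fin 1) ℝ).repr
  have hm := e.measurePreserving
  have he := e.toHomeomorph.measurableEmbedding
  have hb : ∀ t, e t ∈ ball x r ↔ t ∈ Ioo (e.symm x - r) (e.symm x + r) := fun t => by
    rw [← Real.ball_eq_Ioo, mem_ball, mem_ball, ← e.dist_map, e.apply_symm_apply]
  have k := dbr (f := fun t => e.symm (A (e t))) (a := e.symm x - r) (b := e.symm x + r)
    (by linarith) ?_ ?_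
  · obtain ⟨c, hc⟩ := k
    refine ⟨e c, ?_⟩
    filter_upwards [e.symm.measurePreserving.quasiMeasurePreserving.ae hc] with y hy hy'
    rw [← hy ((hb _).1 (by simpa using hy'))]
    simp
  · refine (locallyIntegrableOn_iff isOpen_Ioo.isLocallyClosed).2 fun K hK hK' => ?_
    have := hA (e '' K) (by rintro _ ⟨t, ht, rfl⟩; exact (hb t).2 (hK ht)) (hK'.image e.continuous)
    exact e.symm.toContinuousLinearEquiv.toContinuousLinearMap.integrable_comp
      ((hm.integrableOn_image he).1 this)
  · intro φ h1 h2 h3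
    have := h (φ ∘ e.symm) (h1.comp e.symm.contDiff) (h2.comp_homeomorph e.symm.toHomeomorph) ?_
    · rw [← hm.integral_comp he] at this
      rw [← this]
      congr 1; ext t
      have := ((h1.differentiable (by simp) (e.symm (e t))).hasDerivAt.hasFDerivAt.comp (e t)
        e.symm.toContinuousLinearEquiv.hasFDerivAt).fderiv
      rw [real_inner_comm, inner_gradient_left]
      erw [this]
      simp [mul_comm]
    · intro y hy
      have := (hb (e.symm y)).2 (h3 (tsupport_comp_subset_preimage φ e.symm.continuous hy))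
      simpa using this

theorem grad_const {p : ℝ} (hp : 1 < p) {U : Set (E 1)} {h : E 1 → ℝ} {G : E 1 → E 1}
    (H : Harm p U h G) {x : E 1} {r : ℝ} (hr : 0 < r) (hb : ball x r ⊆ U) :
    ∃ c, ∀ᵐ y, y ∈ ball x r → G y = c := by
  have k := dbrE (A := fun y => ‖G y‖ ^ (p - 2) • G y) hr (fun K hK hK' => ?_)
    fun φ h1 h2 h3 => (H.2 φ h1 h2 (h3.trans hb)).2
  · obtain ⟨c, hc⟩ := k
    refine ⟨‖c‖ ^ ((2 - p) / (p - 1)) • c, ?_⟩
    filter_upwards [hc] with y hy hy'
    rw [← hy hy']
    rcases eq_or_ne (G y) 0 with h0 | h0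
    · simp [h0]
    have h1 := norm_pos_iff.2 h0
    have : p - 1 ≠ 0 := by linarith
    rw [norm_rpow_smul_norm (by linarith), ← Real.rpow_mul h1.le, smul_smul, ← Real.rpow_add h1,
      show (p - 2 + 1) * ((2 - p) / (p - 1)) + (p - 2) = 0 by field_simp; ring]
    simp
  · have hG := (H.1 K (hK.trans hb) hK').2
    have : IsFiniteMeasure (volume.restrict K) := ⟨by simpa using hK'.measure_lt_top⟩
    have i1 := hG.integrable_norm_rpow'
    rw [ENNReal.toReal_ofReal (by linarith)] at i1
    refine ((integrable_const 1).add i1).mono'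
      ((continuous_norm_rpow_smul (s := p - 2) (by linarith)).comp_aestronglyMeasurable hG.1)
      (Eventually.of_forall fun y => ?_)
    rw [norm_rpow_smul_norm (by linarith), Pi.add_apply]
    have h0 : 0 ≤ ‖G y‖ ^ p := by positivity
    rcases le_total ‖G y‖ 1 with h1 | h1
    · have := Real.rpow_le_one (norm_nonneg _) h1 (z := p - 2 + 1) (by linarith)
      linarith
    · have := Real.rpow_le_rpow_of_exponent_le h1 (show p - 2 + 1 ≤ p by linarith)
      linarith

theorem one {p : ℝ} (hp : 1 < p) (Ψ : E 1 → E 1) {U : Set (E 1)} (hU : IsOpen U) {h : E 1 → ℝ}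
    {G : E 1 → E 1} (H : Harm p U h G) :
    Rep U (fun x => Ψ (G x)) ∧ Dec 0 U fun x => Ψ (G x) := by
  constructor
  · have : ∀ x, ∃ r c, x ∈ U → 0 < r ∧ ball x r ⊆ U ∧ ∀ᵐ y, y ∈ ball x r → G y = c := by
      intro x
      by_cases hx : x ∈ U
      · obtain ⟨r, hr, hb⟩ := Metric.isOpen_iff.1 hU x hx
        obtain ⟨c, hc⟩ := grad_const hp H hr hb
        exact ⟨r, c, fun _ => ⟨hr, hb, hc⟩⟩
      · exact ⟨0, 0, fun h => absurd h hx⟩
    choose r c hc using this
    have loc : ∀ x ∈ U, ∀ y ∈ ball x (r x), c y = c x := by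
      intro x hx y hy
      obtain ⟨-, x2, x3⟩ := hc x hx
      obtain ⟨y1, -, y3⟩ := hc y (x2 hy)
      by_contra hn
      refine ((isOpen_ball.inter isOpen_ball).measure_pos volume
        ⟨y, hy, mem_ball_self y1⟩).ne' (measure_eq_zero_iff_ae_notMem.2 ?_)
      filter_upwards [x3, y3] with z z1 z2 hz using hn ((z2 hz.2).symm.trans (z1 hz.1))
    refine ⟨fun x => Ψ (c x), fun x hx => ContDiffAt.contDiffWithinAt ?_, ?_⟩
    · refine (contDiffAt_const (c := Ψ (c x))).congr_of_eventuallyEq ?_
      filter_upwards [ball_mem_nhds x (hc x hx).1] with y hy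
      rw [loc x hx y hy]
    · refine (ae_restrict_iff' hU.measurableSet).2 (measure_null_of_locally_null _ fun x hx => ?_)
      have hx' : x ∈ U := by by_contra hn; exact hx fun h => absurd h hn
      refine ⟨_, inter_mem_nhdsWithin _ (ball_mem_nhds x (hc x hx').1),
        measure_eq_zero_iff_ae_notMem.2 ?_⟩
      filter_upwards [(hc x hx').2.2] with y hy hy'
      exact hy'.1 fun _ => by simp only [loc x hx' y hy'.2, hy hy'.2]
  · intro x r hr hb _ θ hθ
    obtain ⟨c, hc⟩ := grad_const hp H hr hb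
    have h1 : 0 < θ * r := mul_pos hθ.1 hr
    have h2 : ∀ᵐ y, y ∈ ball x (θ * r) → Ψ (G y) = Ψ c := by
      filter_upwards [hc] with y hy hy'
      rw [hy (ball_subset_ball (by nlinarith [hθ.2]) hy')]
    have h3 : ⨍ y in ball x (θ * r), Ψ (G y) = Ψ c := by
      rw [setAverage_congr_fun measurableSet_ball h2]
      exact setAverage_const (measure_ball_pos _ _ h1).ne' measure_ball_lt_top.ne _
    have h4 : ⨍ z in ball x (θ * r), ‖Ψ (G z) - Ψ c‖ ^ 2 = 0 := by
      rw [setAverage_congr_fun measurableSet_ball (g := fun _ => 0)]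
      · simp
      · filter_upwards [h2] with y hy hy'
        simp [hy hy']
    simp [osc, h3, h4]

end Pool.Agent.MP_815c6c_an.T3
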