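import Mathlib
import Pool.Agent.MP_815c6c_an.P.Spec
import Pool.Agent.MP_815c6c_an.t3.One

/-! The scalar statement by dimension, from the planar statement. -/

open Set

namespace Pool.Agent.MP_815c6c_an.T3

/-- dimensions one and two, every exponent, a constant that depends on the exponent only -/
theorem low (F : P.FinS) (d : ℕ) (p : ℝ) (h1 : 1 ≤ d) (h2 : d ≤ 2) (hp : 1 < p) :
    ∃ c, ∀ (U : Set (E d)) (h : E d → ℝ) (G : E d → E d), IsOpen U → Harm p U h G →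
      Rep U (fun x => ‖G x‖ ^ (p / 2 - 1) • G x) ∧ Dec c U fun x => ‖G x‖ ^ (p / 2 - 1) • G x := by
  interval_cases d
  · exact ⟨0, fun U h G hU H => one hp (fun ξ => ‖ξ‖ ^ (p / 2 - 1) • ξ) hU H⟩
  · obtain ⟨c, hc⟩ := F p (p / 2) hp (by linarith) (by nlinarith [sq_nonneg (p - 2)])
    refine ⟨c, fun U h G hU H => ?_⟩
    obtain ⟨a, b⟩ := hc U h G hU H.1 H.2
    refine ⟨a ((eq_or_ne p 2).imp_right fun e => ?_), b⟩
    nlinarith [sq_pos_of_ne_zero (sub_ne_zero.2 e)]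

theorem rep_iff (F : P.FinS) (d : ℕ) (p : ℝ) (h1 : 1 ≤ d) (p1 : 17 / 10 ≤ p) (p2 : p < 2) :
    (∀ (U : Set (E d)) (h : E d → ℝ) (G : E d → E d), IsOpen U → Harm p U h G →
      Rep U fun x => ‖G x‖ ^ (p / 2 - 1) • G x) ↔ d ≤ 2 := by
  refine ⟨fun H => ?_, fun h2 U h G hU H => ?_⟩
  · by_contra hn
    obtain ⟨h, G, k⟩ := three d p (by omega) p1 p2
    exact ((k univ).2 isOpen_univ trivial).1 (H _ h G isOpen_univ (k univ).1)
  · obtain ⟨c, hc⟩ := low F d p h1 h2 (by linarith)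
    exact (hc U h G hU H).1

theorem dec_iff (F : P.FinS) (d : ℕ) (p : ℝ) (h1 : 1 ≤ d) (p1 : 17 / 10 ≤ p) (p2 : p < 2) :
    (∀ (U : Set (E d)) (h : E d → ℝ) (G : E d → E d), IsOpen U → Harm p U h G →
      ∃ c, Dec c U fun x => ‖G x‖ ^ (p / 2 - 1) • G x) ↔ d ≤ 2 := by
  refine ⟨fun H => ?_, fun h2 U h G hU H => ?_⟩
  · by_contra hn
    obtain ⟨h, G, k⟩ := three d p (by omega) p1 p2
    exact ((k univ).2 isOpen_univ trivial).2 (H _ h G isOpen_univ (k univ).1)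
  · obtain ⟨c, hc⟩ := low F d p h1 h2 (by linarith)
    exact ⟨c, (hc U h G hU H).2⟩

end Pool.Agent.MP_815c6c_an.T3
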